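import Pool.Agent.W2helper24.HS.Core

/-! The nonexistence argument: conclusion. -/

set_option autoImplicit false
open MeasureTheory Filter Topology Set
open scoped ENNReal ContDiff NNReal

namespace Pool.Agent.W2helper24.HS

variable {Ω : Set E} {u : E → ℝ} {G : E → E} {φ : ℕ → E → ℝ}

lemma holder_mul {p q r : ℝ≥0∞} [ENNReal.HolderTriple p q r] {f g : E → ℝ}
    (hf : AEStronglyMeasurable f volume) (hg : AEStronglyMeasurable g volume) :
    eLpNorm (fun x => f x * g x) r volume ≤ eLpNorm f p volume * eLpNorm g q volume := by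
  have h := eLpNorm_smul_le_mul_eLpNorm (p := p) (q := q) (r := r) hg hf
  exact h

lemma holder1 {f g : E → ℝ} (hf : AEStronglyMeasurable f volume)
    (hg : AEStronglyMeasurable g volume) :
    eLpNorm (fun x => f x * g x) 1 volume ≤ eLpNorm f 2 volume * eLpNorm g 2 volume :=
  holder_mul hf hg

instance inst362 : ENNReal.HolderTriple 3 6 2 := by
  refine ⟨?_⟩
  have h3 : (3 : ℝ≥0∞)⁻¹ = ENNReal.ofReal (3⁻¹) := by
    rw [ENNReal.ofReal_inv_of_pos (by norm_num)]; norm_num
  have h6 : (6 : ℝ≥0∞)⁻¹ = ENNReal.ofReal (6⁻¹) := by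
    rw [ENNReal.ofReal_inv_of_pos (by norm_num)]; norm_num
  have h2 : (2 : ℝ≥0∞)⁻¹ = ENNReal.ofReal (2⁻¹) := by
    rw [ENNReal.ofReal_inv_of_pos (by norm_num)]; norm_num
  rw [h3, h6, h2, ← ENNReal.ofReal_add (by norm_num) (by norm_num)]
  norm_num

instance inst663 : ENNReal.HolderTriple 6 6 3 := by
  refine ⟨?_⟩
  have h3 : (3 : ℝ≥0∞)⁻¹ = ENNReal.ofReal (3⁻¹) := by
    rw [ENNReal.ofReal_inv_of_pos (by norm_num)]; norm_num
  have h6 : (6 : ℝ≥0∞)⁻¹ = ENNReal.ofReal (6⁻¹) := by
    rw [ENNReal.ofReal_inv_of_pos (by norm_num)]; norm_num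
  rw [h3, h6, ← ENNReal.ofReal_add (by norm_num) (by norm_num)]
  norm_num

lemma holder2 {f g : E → ℝ} (hf : AEStronglyMeasurable f volume)
    (hg : AEStronglyMeasurable g volume) :
    eLpNorm (fun x => f x * g x) 2 volume ≤ eLpNorm f 3 volume * eLpNorm g 6 volume :=
  holder_mul hf hg

lemma holder3 {f g : E → ℝ} (hf : AEStronglyMeasurable f volume)
    (hg : AEStronglyMeasurable g volume) :
    eLpNorm (fun x => f x * g x) 3 volume ≤ eLpNorm f 6 volume * eLpNorm g 6 volume :=
  holder_mul hf hg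

lemma int_two (h : MemLp u 2 volume) : Integrable (fun x => |u x| ^ 2) := by
  have := h.integrable_norm_pow (p := 2) (by norm_num)
  simpa using this

lemma int_six (h : MemLp u 6 volume) : Integrable (fun x => |u x| ^ 6) := by
  have := h.integrable_norm_pow (p := 6) (by norm_num)
  simpa using this

lemma int_pow (h2 : MemLp u 2 volume) (h6 : MemLp u 6 volume) (k : ℕ) (hk2 : 2 ≤ k) (hk6 : k ≤ 6) :
    Integrable (fun x => |u x| ^ k) := by
  refine Integrable.mono' ((int_two h2).add (int_six h6)) ?_ ?_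
  · have := h2.1.norm.pow k
    exact this
  · refine Eventually.of_forall fun x => ?_
    rw [Real.norm_eq_abs, abs_of_nonneg (by positivity)]
    show |u x| ^ k ≤ |u x| ^ 2 + |u x| ^ 6
    rcases le_total |u x| 1 with h | h
    · have h1 : |u x| ^ k ≤ |u x| ^ 2 := pow_le_pow_of_le_one (abs_nonneg _) h hk2
      have h3 : 0 ≤ |u x| ^ 6 := by positivity
      linarith
    · have h1 : |u x| ^ k ≤ |u x| ^ 6 := pow_le_pow_right₀ h hk6
      have h3 : 0 ≤ |u x| ^ 2 := by positivity
      linarith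

lemma mem_three (h2 : MemLp u 2 volume) (h6 : MemLp u 6 volume) : MemLp u 3 volume := by
  rw [← integrable_norm_rpow_iff h2.1 (by norm_num) (by norm_num)]
  have := int_pow h2 h6 3 (by norm_num) (by norm_num)
  refine this.congr (Eventually.of_forall fun x => ?_)
  have e : (3 : ℝ≥0∞).toReal = ((3 : ℕ) : ℝ) := by norm_num
  simp only [Real.norm_eq_abs]
  rw [e, Real.rpow_natCast]

lemma mem_cube (h6 : MemLp u 6 volume) : MemLp (fun x => u x ^ 3) 2 volume := by
  have hm : AEStronglyMeasurable (fun x => u x ^ 3) volume := h6.1.pow 3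
  rw [memLp_two_iff_integrable_sq hm]
  refine (int_six h6).congr (Eventually.of_forall fun x => ?_)
  simp only
  rw [← abs_of_nonneg (show 0 ≤ (u x ^ 3) ^ 2 by positivity), abs_pow, abs_pow]
  ring

/-- the dilated gradient -/
noncomputable def dilG (τ : ℝ) (G : E → E) (x : E) : E := τ ^ 15 • G (τ ^ 10 • x)

lemma quasi {τ : ℝ} (hτ : 0 < τ) :
    Measure.QuasiMeasurePreserving (fun x : E => τ ^ 10 • x) volume volume := by
  refine ⟨measurable_const_smul _, ?_⟩
  rw [Measure.map_addHaar_smul volume (by positivity)]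
  exact Measure.smul_absolutelyContinuous

lemma dil_meas {f : E → ℝ} (hf : AEStronglyMeasurable f volume) {τ : ℝ} (hτ : 0 < τ) :
    AEStronglyMeasurable (dil τ f) volume :=
  (hf.comp_quasiMeasurePreserving (quasi hτ)).const_mul _

lemma dilG_meas (hf : AEStronglyMeasurable G volume) {τ : ℝ} (hτ : 0 < τ) :
    AEStronglyMeasurable (dilG τ G) volume :=
  (hf.comp_quasiMeasurePreserving (quasi hτ)).const_smul (τ ^ 15)

lemma dil_norm6 (f : E → ℝ) {τ : ℝ} (hτ : 0 < τ) :
    eLpNorm (dil τ f) 6 volume = eLpNorm f 6 volume := dil6 f hτ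

lemma dil_hardy (f : E → ℝ) {τ : ℝ} (hτ : 0 < τ) :
    eLpNorm (fun x => dil τ f x * ‖x‖⁻¹) 2 volume = eLpNorm (fun x => f x * ‖x‖⁻¹) 2 volume := by
  rw [← dil2 (fun x => f x * ‖x‖⁻¹) hτ]
  congr 1
  funext x
  simp only [dil, smul_eq_mul]
  rw [norm_smul, Real.norm_eq_abs, abs_of_pos (by positivity : (0:ℝ) < τ ^ 10), mul_inv]
  field_simp

lemma dil_sub (τ : ℝ) (f g : E → ℝ) (x : E) : dil τ (fun x => f x - g x) x = dil τ f x - dil τ g x := by
  simp only [dil]; ring

lemma dil_memTwo (D : Data Ω u G φ) {τ : ℝ} (hτ : 0 < τ) : MemLp (dilG τ G) 2 volume :=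
  ⟨dilG_meas D.memG.1 hτ, by
    have : eLpNorm (dilG τ G) 2 volume = eLpNorm G 2 volume := dil2 G hτ
    rw [this]; exact D.memG.2⟩

lemma dil_memSix (D : Data Ω u G φ) {τ : ℝ} (hτ : 0 < τ) : MemLp (dil τ u) 6 volume :=
  ⟨dil_meas D.memu.1 hτ, by rw [dil_norm6 u hτ]; exact (mem_six D).2⟩

lemma dil_memHardy (h0 : (0 : E) ∉ Ω) (D : Data Ω u G φ) {τ : ℝ} (hτ : 0 < τ) :
    MemLp (fun x => dil τ u x * ‖x‖⁻¹) 2 volume :=
  ⟨(dil_meas D.memu.1 hτ).mul measurable_norm.inv.aestronglyMeasurable, by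
    rw [dil_hardy u hτ]; exact (mem_hardy h0 D).2⟩

lemma int_inner {A B : E → E} (hA : MemLp A 2 volume) (hB : MemLp B 2 volume) :
    Integrable (fun x => inner ℝ (A x) (B x)) := by
  have h1 : Integrable (fun x => ‖A x‖ * ‖B x‖) := hA.norm.integrable_mul hB.norm
  refine h1.mono' (hA.1.inner hB.1) (Eventually.of_forall fun x => ?_)
  exact norm_inner_le_norm _ _

/-- the identity obtained by testing with the dilation of `u` -/
lemma identity (h0 : (0 : E) ∉ Ω) (hstar : ∀ (t : ℝ) (x : E), 1 ≤ t → t • x ∈ Ω → x ∈ Ω)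
    (D : Data Ω u G φ)
    (eqn : ∀ ψ, IsTest Ω ψ →
      ∫ x, (inner ℝ (G x) (gradient ψ x) + u x ^ 4 * ψ x - u x ^ 3 * ψ x / ‖x‖) = 0)
    {τ : ℝ} (hτ : 1 ≤ τ) :
    (∫ x, inner ℝ (G x) (dilG τ G x)) + (∫ x, u x ^ 4 * dil τ u x) =
      ∫ x, u x ^ 3 * (dil τ u x * ‖x‖⁻¹) := by
  have hτ0 : 0 < τ := by linarith
  have m2 := D.memu
  have m6 := mem_six D
  have m3 := mem_three m2 m6
  have mc := mem_cube m6
  have mw : AEStronglyMeasurable (fun x : E => ‖x‖⁻¹) volume := measurable_norm.inv.aestronglyMeasurable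
  set ψ : ℕ → E → ℝ := fun n => dil τ (φ n) with hψ
  have hψt : ∀ n, IsTest Ω (ψ n) := fun n => dil_test hstar (D.test n) hτ
  -- integrability of the terms
  have i1 : ∀ n, Integrable (fun x => inner ℝ (G x) (gradient (ψ n) x)) := fun n =>
    int_inner D.memG ((grad_cont (hψt n)).memLp_of_hasCompactSupport (grad_cpt (hψt n)))
  have i2 : ∀ f : E → ℝ, MemLp f 6 volume → Integrable (fun x => u x ^ 4 * f x) := by
    intro f hf
    have h1 : MemLp (fun x => u x * f x) 2 volume := hf.mul' m3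
    have h2 : Integrable (fun x => u x ^ 3 * (u x * f x)) := mc.integrable_mul h1
    refine h2.congr (Eventually.of_forall fun x => ?_)
    simp only; ring
  have i3 : ∀ f : E → ℝ, MemLp (fun x => f x * ‖x‖⁻¹) 2 volume →
      Integrable (fun x => u x ^ 3 * (f x * ‖x‖⁻¹)) := fun f hf => mc.integrable_mul hf
  have ψ6 : ∀ n, MemLp (ψ n) 6 volume := fun n =>
    (hψt n).smooth.continuous.memLp_of_hasCompactSupport (hψt n).cpt
  have ψh : ∀ n, MemLp (fun x => ψ n x * ‖x‖⁻¹) 2 volume := by
    intro n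
    refine ⟨(hψt n).smooth.continuous.aestronglyMeasurable.mul mw, ?_⟩
    refine (hardy h0 (hψt n)).trans_lt ?_
    have : MemLp (gradient (ψ n)) 2 volume :=
      (grad_cont (hψt n)).memLp_of_hasCompactSupport (grad_cpt (hψt n))
    exact ENNReal.mul_lt_top (by norm_num) this.2
  have hn : ∀ n, (∫ x, inner ℝ (G x) (gradient (ψ n) x)) + (∫ x, u x ^ 4 * ψ n x) =
      ∫ x, u x ^ 3 * (ψ n x * ‖x‖⁻¹) := by
    intro n
    have h := eqn _ (hψt n)
    have e : (fun x => inner ℝ (G x) (gradient (ψ n) x) + u x ^ 4 * ψ n x - u x ^ 3 * ψ n x / ‖x‖) =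
        fun x => (inner ℝ (G x) (gradient (ψ n) x) + u x ^ 4 * ψ n x) -
          u x ^ 3 * (ψ n x * ‖x‖⁻¹) := by
      funext x; ring
    have i12 : Integrable (fun x => inner ℝ (G x) (gradient (ψ n) x) + u x ^ 4 * ψ n x) :=
      (i1 n).add (i2 _ (ψ6 n))
    rw [e, integral_sub i12 (i3 _ (ψh n)), integral_add (i1 n) (i2 _ (ψ6 n))] at h
    linarith
  -- limits
  have l1 : Tendsto (fun n => ∫ x, inner ℝ (G x) (gradient (ψ n) x)) atTop
      (𝓝 (∫ x, inner ℝ (G x) (dilG τ G x))) := by
    refine tendsto_integral_of_L1' _ (D.memG.1.inner (dilG_meas D.memG.1 hτ0))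
      (Eventually.of_forall i1) ?_
    have hle : ∀ n, eLpNorm ((fun x => inner ℝ (G x) (gradient (ψ n) x)) -
        fun x => inner ℝ (G x) (dilG τ G x)) 1 volume ≤
        eLpNorm G 2 volume * eLpNorm (fun x => gradient (φ n) x - G x) 2 volume := by
      intro n
      have e1 : ∀ x, gradient (ψ n) x - dilG τ G x =
          τ ^ 15 • (fun x => gradient (φ n) x - G x) (τ ^ 10 • x) := by
        intro x
        simp only [hψ, dilG]
        rw [dil_grad (D.test n), smul_sub]
      have e2 : eLpNorm (fun x => gradient (ψ n) x - dilG τ G x) 2 volume =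
          eLpNorm (fun x => gradient (φ n) x - G x) 2 volume := by
        rw [← dil2 (fun x => gradient (φ n) x - G x) hτ0]
        congr 1
        funext x
        exact e1 x
      rw [← e2]
      have mG : AEStronglyMeasurable (fun x => gradient (ψ n) x - dilG τ G x) volume :=
        ((grad_cont (hψt n)).aestronglyMeasurable).sub (dilG_meas D.memG.1 hτ0)
      calc eLpNorm ((fun x => inner ℝ (G x) (gradient (ψ n) x)) -
            fun x => inner ℝ (G x) (dilG τ G x)) 1 volume
          ≤ eLpNorm (fun x => ‖G x‖ * ‖gradient (ψ n) x - dilG τ G x‖) 1 volume := by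
            refine eLpNorm_mono fun x => ?_
            simp only [Pi.sub_apply]
            rw [← inner_sub_right, norm_mul, norm_norm, norm_norm]
            exact norm_inner_le_norm _ _
        _ ≤ eLpNorm (fun x => ‖G x‖) 2 volume *
            eLpNorm (fun x => ‖gradient (ψ n) x - dilG τ G x‖) 2 volume :=
            holder1 D.memG.1.norm mG.norm
        _ = _ := by rw [eLpNorm_norm, eLpNorm_norm]
    have hl : Tendsto (fun n => eLpNorm G 2 volume *
        eLpNorm (fun x => gradient (φ n) x - G x) 2 volume) atTop (𝓝 0) := by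
      have := ENNReal.Tendsto.const_mul (a := eLpNorm G 2 volume) D.limG (Or.inr D.memG.2.ne)
      simpa using this
    exact tendsto_of_tendsto_of_tendsto_of_le_of_le tendsto_const_nhds hl (fun _ => bot_le) hle
  have l2 : Tendsto (fun n => ∫ x, u x ^ 4 * ψ n x) atTop (𝓝 (∫ x, u x ^ 4 * dil τ u x)) := by
    have hmm : AEStronglyMeasurable (fun x => u x ^ 4 * dil τ u x) volume :=
      (m2.1.pow 4).mul (dil_meas m2.1 hτ0)
    refine tendsto_integral_of_L1' _ hmm (Eventually.of_forall fun n => i2 _ (ψ6 n)) ?_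
    have hle : ∀ n, eLpNorm ((fun x => u x ^ 4 * ψ n x) - fun x => u x ^ 4 * dil τ u x) 1 volume ≤
        eLpNorm (fun x => u x ^ 3) 2 volume * (eLpNorm u 3 volume *
          eLpNorm (fun x => φ n x - u x) 6 volume) := by
      intro n
      have md : AEStronglyMeasurable (dil τ (fun x => φ n x - u x)) volume :=
        dil_meas ((D.test n).smooth.continuous.aestronglyMeasurable.sub m2.1) hτ0
      have e1 : ((fun x => u x ^ 4 * ψ n x) - fun x => u x ^ 4 * dil τ u x) =
          fun x => u x ^ 3 * (u x * dil τ (fun x => φ n x - u x) x) := by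
        funext x
        simp only [Pi.sub_apply, hψ, dil_sub]
        ring
      have hm3 : AEStronglyMeasurable (fun x => u x ^ 3) volume := m2.1.pow 3
      have hm1 : AEStronglyMeasurable (fun x => u x * dil τ (fun x => φ n x - u x) x) volume :=
        m2.1.mul md
      rw [e1]
      have h1 := holder1 hm3 hm1
      have h2 := holder2 m2.1 md
      rw [dil_norm6 (fun x => φ n x - u x) hτ0] at h2
      exact h1.trans (mul_le_mul_right h2 _)
    have hl : Tendsto (fun n => eLpNorm (fun x => u x ^ 3) 2 volume * (eLpNorm u 3 volume *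
          eLpNorm (fun x => φ n x - u x) 6 volume)) atTop (𝓝 0) := by
      have h1 := ENNReal.Tendsto.const_mul (a := eLpNorm u 3 volume) (lim_six D) (Or.inr m3.2.ne)
      have h2 := ENNReal.Tendsto.const_mul (a := eLpNorm (fun x => u x ^ 3) 2 volume) h1
        (Or.inr mc.2.ne)
      simpa using h2
    exact tendsto_of_tendsto_of_tendsto_of_le_of_le tendsto_const_nhds hl (fun _ => bot_le) hle
  have l3 : Tendsto (fun n => ∫ x, u x ^ 3 * (ψ n x * ‖x‖⁻¹)) atTop
      (𝓝 (∫ x, u x ^ 3 * (dil τ u x * ‖x‖⁻¹))) := by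
    have hmm : AEStronglyMeasurable (fun x => u x ^ 3 * (dil τ u x * ‖x‖⁻¹)) volume :=
      (m2.1.pow 3).mul ((dil_meas m2.1 hτ0).mul mw)
    refine tendsto_integral_of_L1' _ hmm (Eventually.of_forall fun n => i3 _ (ψh n)) ?_
    have hle : ∀ n, eLpNorm ((fun x => u x ^ 3 * (ψ n x * ‖x‖⁻¹)) -
        fun x => u x ^ 3 * (dil τ u x * ‖x‖⁻¹)) 1 volume ≤
        eLpNorm (fun x => u x ^ 3) 2 volume *
          eLpNorm (fun x => (φ n x - u x) * ‖x‖⁻¹) 2 volume := by
      intro n
      have md : AEStronglyMeasurable (dil τ (fun x => φ n x - u x)) volume :=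
        dil_meas ((D.test n).smooth.continuous.aestronglyMeasurable.sub m2.1) hτ0
      have e1 : ((fun x => u x ^ 3 * (ψ n x * ‖x‖⁻¹)) - fun x => u x ^ 3 * (dil τ u x * ‖x‖⁻¹)) =
          fun x => u x ^ 3 * (dil τ (fun x => φ n x - u x) x * ‖x‖⁻¹) := by
        funext x
        simp only [Pi.sub_apply, hψ, dil_sub]
        ring
      have hm3 : AEStronglyMeasurable (fun x => u x ^ 3) volume := m2.1.pow 3
      have hm1 : AEStronglyMeasurable (fun x => dil τ (fun x => φ n x - u x) x * ‖x‖⁻¹) volume :=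
        md.mul mw
      rw [e1]
      have h1 := holder1 hm3 hm1
      rw [dil_hardy (fun x => φ n x - u x) hτ0] at h1
      exact h1
    have hl : Tendsto (fun n => eLpNorm (fun x => u x ^ 3) 2 volume *
          eLpNorm (fun x => (φ n x - u x) * ‖x‖⁻¹) 2 volume) atTop (𝓝 0) := by
      have h2 := ENNReal.Tendsto.const_mul (a := eLpNorm (fun x => u x ^ 3) 2 volume)
        (lim_hardy h0 D) (Or.inr mc.2.ne)
      simpa using h2
    exact tendsto_of_tendsto_of_tendsto_of_le_of_le tendsto_const_nhds hl (fun _ => bot_le) hle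
  have l4 := l1.add l2
  have e : (fun n => (∫ x, inner ℝ (G x) (gradient (ψ n) x)) + (∫ x, u x ^ 4 * ψ n x)) =
      fun n => ∫ x, u x ^ 3 * (ψ n x * ‖x‖⁻¹) := funext hn
  rw [e] at l4
  exact tendsto_nhds_unique l4 l3

/-- the difference quotient bound for `u` -/
lemma diff_u (h0 : (0 : E) ∉ Ω) (D : Data Ω u G φ) {τ : ℝ} (hτ : 1 < τ) :
    eLpNorm (fun x => (dil τ u x - u x) * ‖x‖⁻¹) 2 volume ≤
      ENNReal.ofReal (20 * (τ - 1)) * eLpNorm G 2 volume := by
  have hτ0 : 0 < τ := by linarith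
  have m2 := D.memu
  have mw : AEStronglyMeasurable (fun x : E => ‖x‖⁻¹) volume := measurable_norm.inv.aestronglyMeasurable
  have hle : ∀ n, eLpNorm (fun x => (dil τ u x - u x) * ‖x‖⁻¹) 2 volume ≤
      2 * eLpNorm (fun x => (φ n x - u x) * ‖x‖⁻¹) 2 volume +
      ENNReal.ofReal (20 * (τ - 1)) * (eLpNorm (fun x => gradient (φ n) x - G x) 2 volume +
        eLpNorm G 2 volume) := by
    intro n
    set d : E → ℝ := fun x => φ n x - u x with hd
    have mφ : AEStronglyMeasurable (φ n) volume := (D.test n).smooth.continuous.aestronglyMeasurable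
    have mdd : AEStronglyMeasurable d volume := mφ.sub m2.1
    have md : AEStronglyMeasurable (dil τ d) volume := dil_meas mdd hτ0
    have e1 : (fun x => (dil τ u x - u x) * ‖x‖⁻¹) =
        (fun x => (dil τ (φ n) x - φ n x) * ‖x‖⁻¹) -
          ((fun x => dil τ d x * ‖x‖⁻¹) - fun x => d x * ‖x‖⁻¹) := by
      funext x
      simp only [Pi.sub_apply, hd, dil_sub]
      ring
    have ma : AEStronglyMeasurable (fun x => (dil τ (φ n) x - φ n x) * ‖x‖⁻¹) volume :=
      ((dil_meas mφ hτ0).sub mφ).mul mw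
    have mb : AEStronglyMeasurable (fun x => dil τ d x * ‖x‖⁻¹) volume := md.mul mw
    have mc : AEStronglyMeasurable (fun x => d x * ‖x‖⁻¹) volume := mdd.mul mw
    have hg : eLpNorm (gradient (φ n)) 2 volume ≤
        eLpNorm (fun x => gradient (φ n) x - G x) 2 volume + eLpNorm G 2 volume := by
      have e2 : gradient (φ n) = (fun x => gradient (φ n) x - G x) + G := by
        funext x; simp
      conv_lhs => rw [e2]
      exact eLpNorm_add_le (((grad_cont (D.test n)).aestronglyMeasurable).sub D.memG.1)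
        D.memG.1 (by norm_num)
    rw [e1]
    calc _ ≤ eLpNorm (fun x => (dil τ (φ n) x - φ n x) * ‖x‖⁻¹) 2 volume +
          eLpNorm ((fun x => dil τ d x * ‖x‖⁻¹) - fun x => d x * ‖x‖⁻¹) 2 volume :=
          eLpNorm_sub_le ma (mb.sub mc) (by norm_num)
      _ ≤ eLpNorm (fun x => (dil τ (φ n) x - φ n x) * ‖x‖⁻¹) 2 volume +
          (eLpNorm (fun x => dil τ d x * ‖x‖⁻¹) 2 volume +
            eLpNorm (fun x => d x * ‖x‖⁻¹) 2 volume) := by
          gcongr
          exact eLpNorm_sub_le mb mc (by norm_num)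
      _ ≤ ENNReal.ofReal (20 * (τ - 1)) * (eLpNorm (fun x => gradient (φ n) x - G x) 2 volume +
            eLpNorm G 2 volume) + 2 * eLpNorm (fun x => d x * ‖x‖⁻¹) 2 volume := by
          rw [dil_hardy d hτ0, ← two_mul]
          gcongr
          refine (dil_diff h0 (D.test n) hτ).trans ?_
          gcongr
      _ = _ := by rw [add_comm]
  have hl : Tendsto (fun n => 2 * eLpNorm (fun x => (φ n x - u x) * ‖x‖⁻¹) 2 volume +
      ENNReal.ofReal (20 * (τ - 1)) * (eLpNorm (fun x => gradient (φ n) x - G x) 2 volume +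
        eLpNorm G 2 volume)) atTop (𝓝 (2 * 0 + ENNReal.ofReal (20 * (τ - 1)) *
          (0 + eLpNorm G 2 volume))) := by
    refine Tendsto.add ?_ ?_
    · exact ENNReal.Tendsto.const_mul (lim_hardy h0 D) (Or.inr (by norm_num))
    · exact ENNReal.Tendsto.const_mul (D.limG.add tendsto_const_nhds)
        (Or.inr ENNReal.ofReal_ne_top)
  have := ge_of_tendsto' hl hle
  simpa using this

/-- continuity of dilations of `u` in `L⁶` -/
lemma cont_u (D : Data Ω u G φ) :
    Tendsto (fun τ : ℝ => eLpNorm (fun x => dil τ u x - u x) 6 volume) (𝓝[>] 1) (𝓝 0) := by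
  have m2 := D.memu
  rw [ENNReal.tendsto_nhds_zero]
  intro ε hε
  have hε3 : 0 < ε / 3 := ENNReal.div_pos hε.ne' (by norm_num)
  obtain ⟨n, hn⟩ := ((lim_six D).eventually (gt_mem_nhds hε3)).exists
  have h1 := (dil_six (D.test n)).eventually (gt_mem_nhds hε3)
  filter_upwards [h1, self_mem_nhdsWithin] with τ hτ hτ1
  have hτ0 : 0 < τ := lt_trans one_pos hτ1
  set d : E → ℝ := fun x => φ n x - u x with hd
  have mφ : AEStronglyMeasurable (φ n) volume := (D.test n).smooth.continuous.aestronglyMeasurable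
  have mdd : AEStronglyMeasurable d volume := mφ.sub m2.1
  have md : AEStronglyMeasurable (dil τ d) volume := dil_meas mdd hτ0
  have e1 : (fun x => dil τ u x - u x) = (fun x => dil τ (φ n) x - φ n x) - (dil τ d - d) := by
    funext x
    simp only [Pi.sub_apply, hd, dil_sub]
    ring
  rw [e1]
  calc _ ≤ eLpNorm (fun x => dil τ (φ n) x - φ n x) 6 volume + eLpNorm (dil τ d - d) 6 volume :=
        eLpNorm_sub_le ((dil_meas mφ hτ0).sub mφ) (md.sub mdd) (by norm_num)
    _ ≤ eLpNorm (fun x => dil τ (φ n) x - φ n x) 6 volume +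
        (eLpNorm (dil τ d) 6 volume + eLpNorm d 6 volume) := by
        gcongr
        exact eLpNorm_sub_le md mdd (by norm_num)
    _ ≤ ε / 3 + (ε / 3 + ε / 3) := by
        rw [dil_norm6 d hτ0]
        gcongr
    _ = ε := by
        rw [← add_assoc, ENNReal.add_thirds]

lemma integral_dil (f : E → ℝ) {τ : ℝ} (hτ : 0 < τ) :
    τ ^ 30 * ∫ x, f (τ ^ 10 • x) = ∫ x, f x := by
  rw [Measure.integral_comp_smul, finrank_E, abs_of_pos (by positivity), smul_eq_mul,
    ← mul_assoc, show (τ ^ 10) ^ 3 = τ ^ 30 by ring, mul_inv_cancel₀ (by positivity), one_mul]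

lemma integrable_dil {f : E → ℝ} (hf : Integrable f) {τ : ℝ} (hτ : 0 < τ) :
    Integrable (fun x : E => f (τ ^ 10 • x)) :=
  (integrable_comp_smul_iff volume f (by positivity)).2 hf

/-- **Nonexistence.** -/
theorem core (h0 : (0 : E) ∉ Ω) (hstar : ∀ (t : ℝ) (x : E), 1 ≤ t → t • x ∈ Ω → x ∈ Ω)
    (D : Data Ω u G φ) (hu0 : ∀ x, 0 ≤ u x)
    (eqn : ∀ ψ, IsTest Ω ψ →
      ∫ x, (inner ℝ (G x) (gradient ψ x) + u x ^ 4 * ψ x - u x ^ 3 * ψ x / ‖x‖) = 0) :
    ∫ x, u x ^ 5 ≤ 0 := by
  have m2 := D.memu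
  have m6 := mem_six D
  have m3 := mem_three m2 m6
  have mc := mem_cube m6
  have mH := mem_hardy h0 D
  have mw : AEStronglyMeasurable (fun x : E => ‖x‖⁻¹) volume := measurable_norm.inv.aestronglyMeasurable
  have i5 : Integrable (fun x => u x ^ 5) := by
    refine (int_pow m2 m6 5 (by norm_num) (by norm_num)).congr (Eventually.of_forall fun x => ?_)
    simp only
    rw [abs_of_nonneg (hu0 x)]
  set A1 : ℝ := ∫ x, ‖G x‖ ^ 2 with hA1
  set B1 : ℝ := ∫ x, u x ^ 3 * (u x * ‖x‖⁻¹) with hB1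
  set C1 : ℝ := ∫ x, u x ^ 5 with hC1
  have hC10 : 0 ≤ C1 := integral_nonneg fun x => pow_nonneg (hu0 x) 5
  have iG : Integrable (fun x => ‖G x‖ ^ 2) := by
    have := D.memG.integrable_norm_pow (p := 2) (by norm_num)
    simpa using this
  have iB : Integrable (fun x => u x ^ 3 * (u x * ‖x‖⁻¹)) := mc.integrable_mul mH
  -- identity at `τ = 1`
  have id1 : A1 + C1 = B1 := by
    have h := identity h0 hstar D eqn (le_refl (1 : ℝ))
    have e1 : dil 1 u = u := funext (dil_one u)
    have e2 : dilG 1 G = G := by funext x; simp [dilG]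
    rw [e1, e2] at h
    rw [hA1, hC1, hB1, ← h]
    congr 1
    · refine integral_congr_ae (Eventually.of_forall fun x => ?_)
      simp only
      rw [real_inner_self_eq_norm_sq]
  set K : ℝ≥0∞ := eLpNorm u 6 volume * eLpNorm u 6 volume with hK
  have hKt : K ≠ ⊤ := ENNReal.mul_ne_top m6.2.ne m6.2.ne
  set g : ℝ≥0∞ := eLpNorm G 2 volume with hg
  have hgt : g ≠ ⊤ := D.memG.2.ne
  set Y : ℝ → ℝ≥0∞ := fun τ => eLpNorm (fun x => dil τ u x - u x) 6 volume with hY
  -- the main inequality
  have main : ∀ τ : ℝ, 1 < τ → ENNReal.ofReal C1 ≤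
      ENNReal.ofReal τ * ((20 * g * (2 * (2 * K))) * Y τ) := by
    intro τ hτ
    have hτ0 : 0 < τ := by linarith
    set U : E → ℝ := dil τ u with hU
    have hU0 : ∀ x, 0 ≤ U x := fun x => mul_nonneg (by positivity) (hu0 _)
    have mU : AEStronglyMeasurable U volume := dil_meas m2.1 hτ0
    have mU6 : MemLp U 6 volume := dil_memSix D hτ0
    have mUH : MemLp (fun x => U x * ‖x‖⁻¹) 2 volume := dil_memHardy h0 D hτ0
    have mcU : MemLp (fun x => U x ^ 3) 2 volume := mem_cube mU6
    have idτ := identity h0 hstar D eqn hτ.le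
    rw [← hU] at idτ
    -- (2): the gradient term
    have hA : ∫ x, inner ℝ (G x) (dilG τ G x) ≤ A1 := by
      have i1 : Integrable (fun x => inner ℝ (G x) (dilG τ G x)) :=
        int_inner D.memG (dil_memTwo D hτ0)
      have i2 : Integrable (fun x => ‖dilG τ G x‖ ^ 2) := by
        have := (dil_memTwo D hτ0).integrable_norm_pow (p := 2) (by norm_num)
        simpa using this
      have e1 : ∫ x, ‖dilG τ G x‖ ^ 2 = A1 := by
        rw [hA1, ← integral_dil (fun x => ‖G x‖ ^ 2) hτ0, ← integral_const_mul]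
        refine integral_congr_ae (Eventually.of_forall fun x => ?_)
        simp only [dilG]
        rw [norm_smul, Real.norm_eq_abs, abs_of_pos (by positivity), mul_pow]
        ring
      have h1 : ∫ x, inner ℝ (G x) (dilG τ G x) ≤ ∫ x, (1 / 2 * ‖G x‖ ^ 2 + 1 / 2 * ‖dilG τ G x‖ ^ 2) := by
        refine integral_mono i1 ((iG.const_mul _).add (i2.const_mul _)) fun x => ?_
        have h2 := real_inner_le_norm (G x) (dilG τ G x)
        have h3 := sq_nonneg (‖G x‖ - ‖dilG τ G x‖)
        simp only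
        nlinarith
      rw [integral_add (iG.const_mul _) (i2.const_mul _), integral_const_mul, integral_const_mul,
        e1] at h1
      rw [← hA1] at h1
      linarith
    -- (3): the absorption term
    have hC : τ * ∫ x, u x ^ 4 * U x ≤ C1 := by
      have i1 : Integrable (fun x => u x ^ 4 * U x) := by
        have h1 : MemLp (fun x => u x * U x) 2 volume := mU6.mul' m3
        have h2 : Integrable (fun x => u x ^ 3 * (u x * U x)) := mc.integrable_mul h1
        refine h2.congr (Eventually.of_forall fun x => ?_)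
        simp only; ring
      have e2 : ∀ x, (τ * U x) ^ 5 = τ ^ 30 * u (τ ^ 10 • x) ^ 5 := by
        intro x
        simp only [hU, dil]
        ring
      have i2 : Integrable (fun x => (τ * U x) ^ 5) := by
        simp only [e2]
        exact (integrable_dil i5 hτ0).const_mul _
      have e3 : ∫ x, (τ * U x) ^ 5 = C1 := by
        simp only [e2]
        rw [integral_const_mul, integral_dil (fun x => u x ^ 5) hτ0]
      have h1 : ∫ x, τ * (u x ^ 4 * U x) ≤ ∫ x, (4 / 5 * u x ^ 5 + 1 / 5 * (τ * U x) ^ 5) := by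
        refine integral_mono (i1.const_mul _) ((i5.const_mul _).add (i2.const_mul _)) fun x => ?_
        simp only
        have ha := hu0 x
        have hb : 0 ≤ τ * U x := mul_nonneg hτ0.le (hU0 x)
        set a := u x
        set b := τ * U x with hbd
        have e4 : τ * (a ^ 4 * U x) = a ^ 4 * b := by rw [hbd]; ring
        rw [e4]
        have h5 : 0 ≤ (a - b) ^ 2 * (4 * a ^ 3 + 3 * a ^ 2 * b + 2 * a * b ^ 2 + b ^ 3) := by
          positivity
        have h6 : (a - b) ^ 2 * (4 * a ^ 3 + 3 * a ^ 2 * b + 2 * a * b ^ 2 + b ^ 3) =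
            4 * a ^ 5 + b ^ 5 - 5 * (a ^ 4 * b) := by ring
        linarith
      rw [integral_const_mul, integral_add (i5.const_mul _) (i2.const_mul _), integral_const_mul,
        integral_const_mul, e3] at h1
      rw [← hC1] at h1
      linarith
    -- (4): the Hardy-Sobolev term
    set F : E → ℝ := fun x => ((3 / 2) * (u x * u x + U x * U x) * (U x - u x)) *
      ((U x - u x) * ‖x‖⁻¹) with hF
    have mD : MemLp (fun x => U x - u x) 6 volume := mU6.sub m6
    have mDH : MemLp (fun x => (U x - u x) * ‖x‖⁻¹) 2 volume := by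
      have := mUH.sub mH
      refine this.congr_norm ((mU.sub m2.1).mul mw) (Eventually.of_forall fun x => ?_)
      simp only [Pi.sub_apply]
      congr 1; ring
    have mQ3 : MemLp (fun x => (3 / 2) * (u x * u x + U x * U x)) 3 volume := by
      have h1 : MemLp (fun x => u x * u x) 3 volume := m6.mul' m6
      have h2 : MemLp (fun x => U x * U x) 3 volume := mU6.mul' mU6
      exact (h1.add h2).const_mul _
    have mP2 : MemLp (fun x => (3 / 2) * (u x * u x + U x * U x) * (U x - u x)) 2 volume :=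
      mD.mul' mQ3
    have iF : Integrable F := mP2.integrable_mul mDH
    have hF0 : ∀ x, 0 ≤ F x := by
      intro x
      have : F x = (3 / 2) * (u x * u x + U x * U x) * (U x - u x) ^ 2 * ‖x‖⁻¹ := by
        simp only [hF]; ring
      rw [this]
      have := mul_self_nonneg (u x)
      have := mul_self_nonneg (U x)
      positivity
    have iBτ : Integrable (fun x => u x ^ 3 * (U x * ‖x‖⁻¹)) := mc.integrable_mul mUH
    have i4 : Integrable (fun x => U x ^ 3 * (U x * ‖x‖⁻¹)) := mcU.integrable_mul mUH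
    have e4 : ∫ x, U x ^ 3 * (U x * ‖x‖⁻¹) = B1 := by
      rw [hB1, ← integral_dil (fun x => u x ^ 3 * (u x * ‖x‖⁻¹)) hτ0, ← integral_const_mul]
      refine integral_congr_ae (Eventually.of_forall fun x => ?_)
      simp only [hU, dil]
      rw [norm_smul, Real.norm_eq_abs, abs_of_pos (by positivity : (0:ℝ) < τ ^ 10), mul_inv]
      field_simp
    have hB : B1 - ∫ x, F x ≤ ∫ x, u x ^ 3 * (U x * ‖x‖⁻¹) := by
      have hpt : ∀ x, 3 / 4 * (u x ^ 3 * (u x * ‖x‖⁻¹)) + 1 / 4 * (U x ^ 3 * (U x * ‖x‖⁻¹)) - F x ≤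
          u x ^ 3 * (U x * ‖x‖⁻¹) := by
        intro x
        have ha := hu0 x
        have hb := hU0 x
        set a := u x
        set b := U x
        have hw : 0 ≤ ‖x‖⁻¹ := by positivity
        have key : 3 / 4 * a ^ 4 + 1 / 4 * b ^ 4 - (3 / 2) * (a * a + b * b) * (b - a) ^ 2 ≤
            a ^ 3 * b := by
          have h5 : 0 ≤ (b - a) ^ 2 * (3 * b ^ 2 + 2 * a * b + a ^ 2) := by positivity
          have h6 : (b - a) ^ 2 * (a * b) ≤ (b - a) ^ 2 * ((a * a + b * b) / 2) := by
            apply mul_le_mul_of_nonneg_left _ (sq_nonneg _)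
            nlinarith [sq_nonneg (a - b)]
          nlinarith
        have h7 := mul_le_mul_of_nonneg_right key hw
        have e5 : F x = (3 / 2) * (a * a + b * b) * (b - a) ^ 2 * ‖x‖⁻¹ := by
          simp only [hF]; ring
        rw [e5]
        calc _ = (3 / 4 * a ^ 4 + 1 / 4 * b ^ 4 - (3 / 2) * (a * a + b * b) * (b - a) ^ 2) * ‖x‖⁻¹ := by
              ring
          _ ≤ a ^ 3 * b * ‖x‖⁻¹ := h7
          _ = _ := by ring
      have i7 : Integrable (fun x => 3 / 4 * (u x ^ 3 * (u x * ‖x‖⁻¹)) +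
          1 / 4 * (U x ^ 3 * (U x * ‖x‖⁻¹))) := (iB.const_mul _).add (i4.const_mul _)
      have i9 : Integrable (fun x => 3 / 4 * (u x ^ 3 * (u x * ‖x‖⁻¹)) +
          1 / 4 * (U x ^ 3 * (U x * ‖x‖⁻¹)) - F x) := i7.sub iF
      have h8 := integral_mono i9 iBτ hpt
      rw [integral_sub i7 iF, integral_add (iB.const_mul _) (i4.const_mul _), integral_const_mul,
        integral_const_mul, e4, ← hB1] at h8
      linarith
    -- assemble
    have hfin : C1 * (τ - 1) ≤ τ * ∫ x, F x := by
      have h1 : A1 ≥ B1 - (∫ x, F x) - ∫ x, u x ^ 4 * U x := by linarith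
      have h2 : C1 - ∫ x, u x ^ 4 * U x ≤ ∫ x, F x := by linarith
      nlinarith
    -- bound of `∫ F`
    have hFle : ENNReal.ofReal (∫ x, F x) ≤ (2 * (2 * K) * Y τ) * (ENNReal.ofReal (20 * (τ - 1)) * g) := by
      have e6 : ENNReal.ofReal (∫ x, F x) = eLpNorm F 1 volume := by
        rw [ofReal_integral_eq_lintegral_ofReal iF (Eventually.of_forall hF0),
          eLpNorm_one_eq_lintegral_enorm]
        refine lintegral_congr fun x => ?_
        rw [Real.enorm_eq_ofReal (hF0 x)]
      rw [e6]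
      have h1 : eLpNorm F 1 volume ≤ eLpNorm (fun x => (3 / 2) * (u x * u x + U x * U x) * (U x - u x)) 2 volume *
          eLpNorm (fun x => (U x - u x) * ‖x‖⁻¹) 2 volume := holder1 mP2.1 mDH.1
      have h2 : eLpNorm (fun x => (3 / 2) * (u x * u x + U x * U x) * (U x - u x)) 2 volume ≤
          eLpNorm (fun x => (3 / 2) * (u x * u x + U x * U x)) 3 volume * Y τ := holder2 mQ3.1 mD.1
      have h3 : eLpNorm (fun x => (3 / 2) * (u x * u x + U x * U x)) 3 volume ≤ 2 * (2 * K) := by
        have e7 : (fun x => (3 / 2) * (u x * u x + U x * U x)) =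
            (3 / 2 : ℝ) • ((fun x => u x * u x) + fun x => U x * U x) := by
          funext x
          simp [smul_eq_mul]
        rw [e7, eLpNorm_const_smul]
        have h4 : ‖(3 / 2 : ℝ)‖ₑ ≤ 2 := by
          rw [Real.enorm_eq_ofReal (by norm_num)]
          have : (2 : ℝ≥0∞) = ENNReal.ofReal 2 := by norm_num
          rw [this]
          exact ENNReal.ofReal_le_ofReal (by norm_num)
        gcongr
        calc eLpNorm ((fun x => u x * u x) + fun x => U x * U x) 3 volume
            ≤ eLpNorm (fun x => u x * u x) 3 volume + eLpNorm (fun x => U x * U x) 3 volume :=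
              eLpNorm_add_le (m2.1.mul m2.1) (mU.mul mU) (by norm_num)
          _ ≤ K + K := by
              gcongr
              · exact holder3 m2.1 m2.1
              · have := holder3 mU mU
                rw [hU, dil_norm6 u hτ0] at this
                exact this
          _ = 2 * K := (two_mul K).symm
      calc eLpNorm F 1 volume ≤ _ := h1
        _ ≤ (2 * (2 * K) * Y τ) * (ENNReal.ofReal (20 * (τ - 1)) * g) := by
          gcongr
          · exact h2.trans (by gcongr)
          · exact diff_u h0 D hτ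
    have hτ1 : 0 < τ - 1 := by linarith
    have hc0 : ENNReal.ofReal (τ - 1) ≠ 0 := by simpa using hτ1
    have hct : ENNReal.ofReal (τ - 1) ≠ ⊤ := ENNReal.ofReal_ne_top
    rw [← ENNReal.mul_le_mul_iff_left hc0 hct]
    calc ENNReal.ofReal C1 * ENNReal.ofReal (τ - 1) = ENNReal.ofReal (C1 * (τ - 1)) :=
          (ENNReal.ofReal_mul hC10).symm
      _ ≤ ENNReal.ofReal (τ * ∫ x, F x) := ENNReal.ofReal_le_ofReal hfin
      _ = ENNReal.ofReal τ * ENNReal.ofReal (∫ x, F x) := ENNReal.ofReal_mul hτ0.le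
      _ ≤ ENNReal.ofReal τ * ((2 * (2 * K) * Y τ) * (ENNReal.ofReal (20 * (τ - 1)) * g)) := by
          gcongr
      _ = ENNReal.ofReal τ * ((20 * g * (2 * (2 * K))) * Y τ) * ENNReal.ofReal (τ - 1) := by
          rw [ENNReal.ofReal_mul (by norm_num : (0:ℝ) ≤ 20)]
          have : ENNReal.ofReal 20 = 20 := by norm_num
          rw [this]
          ring
  have hlim : Tendsto (fun τ : ℝ => ENNReal.ofReal τ * ((20 * g * (2 * (2 * K))) * Y τ)) (𝓝[>] 1)
      (𝓝 (ENNReal.ofReal 1 * ((20 * g * (2 * (2 * K))) * 0))) := by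
    have h1 : Tendsto (fun τ : ℝ => ENNReal.ofReal τ) (𝓝[>] 1) (𝓝 (ENNReal.ofReal 1)) :=
      (ENNReal.continuous_ofReal.tendsto 1).mono_left nhdsWithin_le_nhds
    have h2 : Tendsto (fun τ : ℝ => (20 * g * (2 * (2 * K))) * Y τ) (𝓝[>] 1)
        (𝓝 ((20 * g * (2 * (2 * K))) * 0)) := by
      refine ENNReal.Tendsto.const_mul (cont_u D) (Or.inr ?_)
      exact ENNReal.mul_ne_top (ENNReal.mul_ne_top (by norm_num) hgt)
        (ENNReal.mul_ne_top (by norm_num) (ENNReal.mul_ne_top (by norm_num) hKt))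
    refine ENNReal.Tendsto.mul h1 (Or.inl (by simp)) h2 (Or.inr ENNReal.ofReal_ne_top)
  have hle : ENNReal.ofReal C1 ≤ ENNReal.ofReal 1 * ((20 * g * (2 * (2 * K))) * 0) := by
    refine ge_of_tendsto hlim ?_
    filter_upwards [self_mem_nhdsWithin] with τ hτ
    exact main τ hτ
  rw [mul_zero, mul_zero] at hle
  have := ENNReal.ofReal_eq_zero.1 (le_antisymm hle bot_le)
  exact this

end Pool.Agent.W2helper24.HS
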