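import Mathlib

/-! Dilations, Hardy and Sobolev inequalities in three-space. -/

set_option autoImplicit false
open MeasureTheory Filter Topology Set
open scoped ENNReal ContDiff NNReal

namespace Pool.Agent.W2helper24.HS

abbrev E := EuclideanSpace ℝ (Fin 3)

/-- `ψ ∈ C_c^∞(Ω)` -/
structure IsTest (Ω : Set E) (ψ : E → ℝ) : Prop where
  smooth : ContDiff ℝ ∞ ψ
  cpt : HasCompactSupport ψ
  sub : tsupport ψ ⊆ Ω

lemma finrank_E : Module.finrank ℝ E = 3 := finrank_euclideanSpace_fin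

lemma eLpNorm_comp_smul {F : Type*} [NormedAddCommGroup F] (f : E → F) {t : ℝ} (ht : 0 < t)
    {p : ℝ≥0∞} (hp : p ≠ ⊤) : eLpNorm (fun x => f (t • x)) p volume =
      (ENNReal.ofReal ((t ^ 3)⁻¹)) ^ (1 / p).toReal * eLpNorm f p volume := by
  have hemb : MeasurableEmbedding (fun x : E => t • x) :=
    (Homeomorph.smulOfNeZero t ht.ne').measurableEmbedding
  have h1 := hemb.eLpNorm_map_measure (μ := (volume : Measure E)) (g := f) (p := p)
  have h2 : (fun x => f (t • x)) = f ∘ (fun x : E => t • x) := rfl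
  rw [h2, ← h1, Measure.map_addHaar_smul volume ht.ne', finrank_E,
    abs_of_pos (by positivity), eLpNorm_smul_measure_of_ne_top hp, smul_eq_mul]

/-- the dilation is an isometry of `L²` on gradients -/
lemma dil2 {F : Type*} [NormedAddCommGroup F] [NormedSpace ℝ F] (f : E → F) {τ : ℝ} (hτ : 0 < τ) :
    eLpNorm (fun x => τ ^ 15 • f (τ ^ 10 • x)) 2 volume = eLpNorm f 2 volume := by
  have h1 : (fun x => τ ^ 15 • f (τ ^ 10 • x)) = (τ ^ 15) • fun x => f (τ ^ 10 • x) := rfl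
  rw [h1, eLpNorm_const_smul, eLpNorm_comp_smul f (by positivity) (by norm_num), ← mul_assoc]
  have h2 : ‖τ ^ 15‖ₑ * ENNReal.ofReal (((τ ^ 10) ^ 3)⁻¹) ^ (1 / (2 : ℝ≥0∞)).toReal = 1 := by
    rw [Real.enorm_eq_ofReal (by positivity)]
    have e1 : (1 / (2 : ℝ≥0∞)).toReal = 1 / 2 := by simp
    rw [e1, ENNReal.ofReal_rpow_of_nonneg (by positivity) (by norm_num), ← ENNReal.ofReal_mul (by positivity)]
    have e2 : (((τ ^ 10) ^ 3)⁻¹) ^ (1 / 2 : ℝ) = (τ ^ 15)⁻¹ := by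
      rw [← Real.sqrt_eq_rpow, Real.sqrt_inv, show (τ ^ 10) ^ 3 = (τ ^ 15) ^ 2 by ring,
        Real.sqrt_sq (by positivity)]
    rw [e2, mul_inv_cancel₀ (by positivity), ENNReal.ofReal_one]
  rw [h2, one_mul]

/-- the dilation is an isometry of `L⁶` on functions -/
lemma dil6 {F : Type*} [NormedAddCommGroup F] [NormedSpace ℝ F] (f : E → F) {τ : ℝ} (hτ : 0 < τ) :
    eLpNorm (fun x => τ ^ 5 • f (τ ^ 10 • x)) 6 volume = eLpNorm f 6 volume := by
  have h1 : (fun x => τ ^ 5 • f (τ ^ 10 • x)) = (τ ^ 5) • fun x => f (τ ^ 10 • x) := rfl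
  rw [h1, eLpNorm_const_smul, eLpNorm_comp_smul f (by positivity) (by norm_num), ← mul_assoc]
  have h2 : ‖τ ^ 5‖ₑ * ENNReal.ofReal (((τ ^ 10) ^ 3)⁻¹) ^ (1 / (6 : ℝ≥0∞)).toReal = 1 := by
    rw [Real.enorm_eq_ofReal (by positivity)]
    have e1 : (1 / (6 : ℝ≥0∞)).toReal = 1 / 6 := by simp
    rw [e1, ENNReal.ofReal_rpow_of_nonneg (by positivity) (by norm_num), ← ENNReal.ofReal_mul (by positivity)]
    have e2 : (((τ ^ 10) ^ 3)⁻¹) ^ (1 / 6 : ℝ) = (τ ^ 5)⁻¹ := by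
      rw [Real.inv_rpow (by positivity), show (τ ^ 10) ^ 3 = (τ ^ 5) ^ 6 by ring]
      congr 1
      rw [← Real.rpow_natCast (τ ^ 5) 6, ← Real.rpow_mul (by positivity)]
      norm_num
    rw [e2, mul_inv_cancel₀ (by positivity), ENNReal.ofReal_one]
  rw [h2, one_mul]

/-- Sobolev's inequality. -/
lemma sobolev : ∃ C : ℝ≥0, ∀ ψ : E → ℝ, ContDiff ℝ 1 ψ → HasCompactSupport ψ →
    eLpNorm ψ 6 volume ≤ C * eLpNorm (gradient ψ) 2 volume := by
  refine ⟨eLpNormLESNormFDerivOfEqInnerConst (volume : Measure E) (2 : ℝ≥0), fun ψ h1 h2 => ?_⟩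
  have h := eLpNorm_le_eLpNorm_fderiv_of_eq_inner (volume : Measure E) h1 h2 (p := 2) (p' := 6)
    (by norm_num) (by rw [finrank_E]; norm_num) (by rw [finrank_E]; norm_num)
  have e : eLpNorm (fderiv ℝ ψ) 2 volume = eLpNorm (gradient ψ) 2 volume := by
    refine eLpNorm_congr_norm_ae (Eventually.of_forall fun x => ?_)
    unfold gradient
    simp
  have e6 : ((6 : ℝ≥0) : ℝ≥0∞) = 6 := by norm_num
  have e2 : ((2 : ℝ≥0) : ℝ≥0∞) = 2 := by norm_num
  rw [e6, e2, e] at h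
  exact h

end Pool.Agent.W2helper24.HS
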