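import Pool.Agent.W2helper24.HS.Dil

/-! The nonexistence argument. -/

set_option autoImplicit false
open MeasureTheory Filter Topology Set
open scoped ENNReal ContDiff NNReal

namespace Pool.Agent.W2helper24.HS

variable {Ω : Set E} {ψ : E → ℝ}

lemma IsTest.sub' {ψ χ : E → ℝ} (h : IsTest Ω ψ) (k : IsTest Ω χ) :
    IsTest Ω (fun x => ψ x - χ x) := by
  refine ⟨h.smooth.sub k.smooth, h.cpt.sub k.cpt, ?_⟩
  have : tsupport (fun x => ψ x - χ x) ⊆ tsupport ψ ∪ tsupport χ := tsupport_sub ψ χ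
  exact this.trans (union_subset h.sub k.sub)

lemma grad_sub {ψ χ : E → ℝ} (h : IsTest Ω ψ) (k : IsTest Ω χ) (x : E) :
    gradient (fun x => ψ x - χ x) x = gradient ψ x - gradient χ x := by
  unfold gradient
  have e : fderiv ℝ (fun x => ψ x - χ x) x = fderiv ℝ ψ x - fderiv ℝ χ x :=
    fderiv_fun_sub (h.smooth.differentiable (by simp) x) (k.smooth.differentiable (by simp) x)
  rw [e, map_sub]

lemma dil_test (hstar : ∀ (t : ℝ) (x : E), 1 ≤ t → t • x ∈ Ω → x ∈ Ω) (h : IsTest Ω ψ) {τ : ℝ}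
    (hτ : 1 ≤ τ) : IsTest Ω (dil τ ψ) := by
  have hτ0 : (0 : ℝ) < τ ^ 10 := by positivity
  have hcomp : HasCompactSupport (fun x => ψ (τ ^ 10 • x)) :=
    h.cpt.comp_homeomorph (Homeomorph.smulOfNeZero (τ ^ 10) hτ0.ne')
  refine ⟨?_, ?_, ?_⟩
  · exact contDiff_const.mul (h.smooth.comp (contDiff_const_smul _))
  · exact hcomp.mul_left
  · intro x hx
    have h1 : tsupport (dil τ ψ) ⊆ tsupport (fun x => ψ (τ ^ 10 • x)) := tsupport_mul_subset_right
    have h2 : tsupport (fun x => ψ (τ ^ 10 • x)) ⊆ (fun x => τ ^ 10 • x) ⁻¹' tsupport ψ := by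
      refine closure_minimal ?_ ((isClosed_tsupport ψ).preimage (by fun_prop))
      intro y hy
      exact subset_tsupport _ hy
    exact hstar (τ ^ 10) x (one_le_pow₀ hτ) (h.sub (h2 (h1 hx)))

lemma dil_grad (h : IsTest Ω ψ) (τ : ℝ) (x : E) :
    gradient (dil τ ψ) x = τ ^ 15 • gradient ψ (τ ^ 10 • x) := by
  have h2 : HasFDerivAt ψ (fderiv ℝ ψ (τ ^ 10 • x)) (τ ^ 10 • x) :=
    (h.smooth.differentiable (by simp) _).hasFDerivAt
  have h3 : HasFDerivAt (fun x : E => τ ^ 10 • x) (τ ^ 10 • ContinuousLinearMap.id ℝ E) x :=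
    (τ ^ 10 • ContinuousLinearMap.id ℝ E).hasFDerivAt
  have h4 := (h2.comp x h3).const_mul (τ ^ 5)
  have h5 : HasFDerivAt (dil τ ψ) (τ ^ 15 • fderiv ℝ ψ (τ ^ 10 • x)) x := by
    refine (show HasFDerivAt (dil τ ψ) _ x from h4).congr_fderiv ?_
    ext v
    simp
    ring
  unfold gradient
  rw [h5.fderiv]
  simp

/-- Continuity of the dilations in `L⁶`. -/
lemma dil_six (h : IsTest Ω ψ) :
    Tendsto (fun τ : ℝ => eLpNorm (fun x => dil τ ψ x - ψ x) 6 volume) (𝓝[>] 1) (𝓝 0) := by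
  have hLc : HasCompactSupport (Lam ψ) := by
    have h1 : HasCompactSupport (fun y => ψ y / 2) :=
      h.cpt.comp_left (g := fun s : ℝ => s / 2) (by simp)
    have h2 : HasCompactSupport (fun y => inner ℝ (gradient ψ y) y) := by
      refine (grad_cpt h).mono' ?_
      intro y hy
      refine subset_tsupport _ ?_
      intro h0
      exact hy (by simp [h0])
    exact h1.add h2
  obtain ⟨K, hK⟩ := hLc.exists_bound_of_continuous (Lam_cont h)
  have hK0 : 0 ≤ K := (norm_nonneg _).trans (hK 0)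
  obtain ⟨R, hR⟩ := h.cpt.isCompact.isBounded.subset_closedBall (0 : E)
  have hb : ∀ τ : ℝ, 1 < τ → τ < 2 → ∀ x, ‖dil τ ψ x - ψ x‖ ≤ 160 * K * (τ - 1) := by
    intro τ h1 h2 x
    have := norm_image_sub_le_of_norm_deriv_le_segment' (f := fun s : ℝ => dil s ψ x) (a := 1)
      (b := τ) (C := 160 * K) (f' := fun s => 10 * s ^ 4 * Lam ψ (s ^ 10 • x))
      (fun s _ => (hasDerivAt_dil h x s).hasDerivWithinAt) (fun s hs => ?_) τ ⟨h1.le, le_rfl⟩
    · rw [dil_one] at this
      exact this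
    · rw [norm_mul, norm_mul, norm_pow, Real.norm_eq_abs, Real.norm_eq_abs]
      have hs1 : 1 ≤ s := hs.1
      have hs2 : s ≤ 2 := by linarith [hs.2]
      rw [abs_of_pos (by norm_num : (0:ℝ) < 10), abs_of_pos (by linarith : (0:ℝ) < s)]
      have h3 : s ^ 4 ≤ 2 ^ 4 := pow_le_pow_left₀ (by linarith) hs2 4
      have h4 := hK (s ^ 10 • x)
      have h5 : 0 ≤ s ^ 4 := by positivity
      calc 10 * s ^ 4 * ‖Lam ψ (s ^ 10 • x)‖ ≤ 10 * 2 ^ 4 * K := by gcongr
        _ = 160 * K := by ring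
  have hsupp : ∀ τ : ℝ, 1 < τ → (Function.support fun x => dil τ ψ x - ψ x) ⊆
      Metric.closedBall 0 R := by
    intro τ h1 x hx
    by_contra hxR
    rw [Metric.mem_closedBall, dist_zero_right, not_le] at hxR
    apply hx
    have e1 : ψ x = 0 := by
      by_contra h3
      have := hR (subset_tsupport _ h3)
      rw [Metric.mem_closedBall, dist_zero_right] at this
      linarith
    have e2 : ψ (τ ^ 10 • x) = 0 := by
      by_contra h3
      have := hR (subset_tsupport _ h3)
      rw [Metric.mem_closedBall, dist_zero_right, norm_smul, Real.norm_eq_abs,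
        abs_of_pos (by positivity)] at this
      have h5 : 1 ≤ τ ^ 10 := one_le_pow₀ h1.le
      have h6 : ‖x‖ ≤ τ ^ 10 * ‖x‖ := le_mul_of_one_le_left (norm_nonneg _) h5
      linarith
    show dil τ ψ x - ψ x = 0
    rw [e1, dil, e2]
    simp
  set V : ℝ≥0∞ := (volume (Metric.closedBall (0 : E) R)) ^ ((6 : ℝ≥0∞).toReal⁻¹) with hV
  have hVtop : V ≠ ⊤ := by
    rw [hV]
    exact ENNReal.rpow_ne_top_of_nonneg (by positivity) (measure_closedBall_lt_top).ne
  have hbound : ∀ τ : ℝ, 1 < τ → τ < 2 → eLpNorm (fun x => dil τ ψ x - ψ x) 6 volume ≤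
      V * ENNReal.ofReal (160 * K * (τ - 1)) := by
    intro τ h1 h2
    rw [← eLpNorm_restrict_eq_of_support_subset (hsupp τ h1)]
    refine (eLpNorm_le_of_ae_bound (Eventually.of_forall (hb τ h1 h2))).trans ?_
    rw [Measure.restrict_apply_univ]
  have hlim : Tendsto (fun τ : ℝ => V * ENNReal.ofReal (160 * K * (τ - 1))) (𝓝[>] 1) (𝓝 0) := by
    have h1 : Tendsto (fun τ : ℝ => ENNReal.ofReal (160 * K * (τ - 1))) (𝓝[>] 1) (𝓝 0) := by
      have h2 : Tendsto (fun τ : ℝ => 160 * K * (τ - 1)) (𝓝[>] 1) (𝓝 (160 * K * (1 - 1))) :=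
        ((continuous_const.mul (continuous_id.sub continuous_const)).tendsto 1).mono_left
          nhdsWithin_le_nhds
      have h3 := ENNReal.tendsto_ofReal h2
      simpa using h3
    have h4 := ENNReal.Tendsto.const_mul (a := V) h1 (Or.inr hVtop)
    simpa using h4
  refine tendsto_of_tendsto_of_tendsto_of_le_of_le' tendsto_const_nhds hlim
    (Eventually.of_forall fun _ => bot_le) ?_
  have : Ioo (1 : ℝ) 2 ∈ 𝓝[>] (1 : ℝ) := Ioo_mem_nhdsGT (by norm_num)
  filter_upwards [this] with τ hτ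
  exact hbound τ hτ.1 hτ.2

/-- A function in `H¹₀(Ω)` with its gradient and an approximating sequence. -/
structure Data (Ω : Set E) (u : E → ℝ) (G : E → E) (φ : ℕ → E → ℝ) : Prop where
  memu : MemLp u 2 volume
  memG : MemLp G 2 volume
  test : ∀ n, IsTest Ω (φ n)
  lim : Tendsto (fun n => eLpNorm (fun x => φ n x - u x) 2 volume) atTop (𝓝 0)
  limG : Tendsto (fun n => eLpNorm (fun x => gradient (φ n) x - G x) 2 volume) atTop (𝓝 0)

variable {u : E → ℝ} {G : E → E} {φ : ℕ → E → ℝ}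

lemma exists_ae_subseq (D : Data Ω u G φ) : ∃ ns : ℕ → ℕ, StrictMono ns ∧
    ∀ᵐ x : E, Tendsto (fun k => φ (ns k) x) atTop (𝓝 (u x)) := by
  have h1 : TendstoInMeasure volume φ atTop u :=
    tendstoInMeasure_of_tendsto_eLpNorm (p := 2) (by norm_num)
      (fun n => (D.test n).smooth.continuous.aestronglyMeasurable) D.memu.1 D.lim
  exact h1.exists_seq_tendsto_ae

/-- Weighted inequalities pass to the limit. -/
lemma lim_weight (D : Data Ω u G φ) {r : ℝ≥0∞} {w : E → ℝ} (hw : Measurable w) {C : ℝ≥0∞}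
    (hCt : C ≠ ⊤)
    (hC : ∀ ψ, IsTest Ω ψ → eLpNorm (fun x => ψ x * w x) r volume ≤ C * eLpNorm (gradient ψ) 2 volume)
    (n : ℕ) : eLpNorm (fun x => (φ n x - u x) * w x) r volume ≤
      C * eLpNorm (fun x => gradient (φ n) x - G x) 2 volume := by
  obtain ⟨ns, hns, hae⟩ := exists_ae_subseq D
  set a : ℝ≥0∞ := eLpNorm (fun x => gradient (φ n) x - G x) 2 volume with ha
  set b : ℕ → ℝ≥0∞ := fun k => eLpNorm (fun x => gradient (φ (ns k)) x - G x) 2 volume with hb
  have hbl : Tendsto b atTop (𝓝 0) := D.limG.comp hns.tendsto_atTop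
  have hmG : AEStronglyMeasurable G volume := D.memG.1
  have hmφ : ∀ k, AEStronglyMeasurable (gradient (φ k)) volume := fun k =>
    (grad_cont (D.test k)).aestronglyMeasurable
  have hf : ∀ k, eLpNorm (fun x => (φ n x - φ (ns k) x) * w x) r volume ≤ C * (a + b k) := by
    intro k
    refine (hC _ ((D.test n).sub' (D.test (ns k)))).trans ?_
    gcongr
    have e : gradient (fun x => φ n x - φ (ns k) x) =
        (fun x => gradient (φ n) x - G x) - fun x => gradient (φ (ns k)) x - G x := by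
      funext x
      rw [grad_sub (D.test n) (D.test (ns k))]
      simp
    rw [e]
    exact eLpNorm_sub_le ((hmφ n).sub hmG) ((hmφ (ns k)).sub hmG) (by norm_num)
  have hlim : ∀ᵐ x : E, Tendsto (fun k => (φ n x - φ (ns k) x) * w x) atTop
      (𝓝 ((φ n x - u x) * w x)) := by
    filter_upwards [hae] with x hx
    exact (tendsto_const_nhds.sub hx).mul tendsto_const_nhds
  have h1 := Lp.eLpNorm_lim_le_liminf_eLpNorm (p := r) (μ := (volume : Measure E))
    (f := fun k x => (φ n x - φ (ns k) x) * w x)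
    (fun k => ((((D.test n).smooth.continuous.sub
      (D.test (ns k)).smooth.continuous).measurable.mul hw).aestronglyMeasurable))
    (fun x => (φ n x - u x) * w x) hlim
  refine h1.trans ?_
  have h2 : liminf (fun k => eLpNorm (fun x => (φ n x - φ (ns k) x) * w x) r volume) atTop ≤
      liminf (fun k => C * (a + b k)) atTop := liminf_le_liminf (Eventually.of_forall hf)
  refine h2.trans ?_
  have h3 : Tendsto (fun k => C * (a + b k)) atTop (𝓝 (C * (a + 0))) :=
    ENNReal.Tendsto.const_mul (tendsto_const_nhds.add hbl) (Or.inr hCt)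
  rw [h3.liminf_eq, add_zero]

lemma lim_six (D : Data Ω u G φ) :
    Tendsto (fun n => eLpNorm (fun x => φ n x - u x) 6 volume) atTop (𝓝 0) := by
  obtain ⟨C, hC⟩ := sobolev
  have h1 : ∀ n, eLpNorm (fun x => φ n x - u x) 6 volume ≤
      C * eLpNorm (fun x => gradient (φ n) x - G x) 2 volume := by
    intro n
    have := lim_weight D (w := fun _ => (1 : ℝ)) (r := 6) measurable_const (C := C)
      ENNReal.coe_ne_top (fun ψ hψ => by
        simpa using hC ψ (hψ.smooth.of_le (by norm_cast)) hψ.cpt) n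
    simpa using this
  have h2 : Tendsto (fun n => (C : ℝ≥0∞) * eLpNorm (fun x => gradient (φ n) x - G x) 2 volume) atTop
      (𝓝 0) := by
    have := ENNReal.Tendsto.const_mul (a := (C : ℝ≥0∞)) D.limG (Or.inr ENNReal.coe_ne_top)
    simpa using this
  exact tendsto_of_tendsto_of_tendsto_of_le_of_le tendsto_const_nhds h2 (fun _ => bot_le) h1

lemma lim_hardy (h0 : (0 : E) ∉ Ω) (D : Data Ω u G φ) :
    Tendsto (fun n => eLpNorm (fun x => (φ n x - u x) * ‖x‖⁻¹) 2 volume) atTop (𝓝 0) := by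
  have h1 : ∀ n, eLpNorm (fun x => (φ n x - u x) * ‖x‖⁻¹) 2 volume ≤
      2 * eLpNorm (fun x => gradient (φ n) x - G x) 2 volume := fun n =>
    lim_weight D (w := fun x => ‖x‖⁻¹) (r := 2) measurable_norm.inv (C := 2) (by norm_num)
      (fun ψ hψ => hardy h0 hψ) n
  have h2 : Tendsto (fun n => (2 : ℝ≥0∞) * eLpNorm (fun x => gradient (φ n) x - G x) 2 volume) atTop
      (𝓝 0) := by
    have := ENNReal.Tendsto.const_mul (a := (2 : ℝ≥0∞)) D.limG (Or.inr (by norm_num))
    simpa using this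
  exact tendsto_of_tendsto_of_tendsto_of_le_of_le tendsto_const_nhds h2 (fun _ => bot_le) h1

lemma mem_six (D : Data Ω u G φ) : MemLp u 6 volume := by
  obtain ⟨n, hn⟩ := ((lim_six D).eventually (gt_mem_nhds (show (0 : ℝ≥0∞) < 1 by norm_num))).exists
  have h1 : MemLp (φ n) 6 volume :=
    (D.test n).smooth.continuous.memLp_of_hasCompactSupport (D.test n).cpt
  have h2 : MemLp (fun x => φ n x - u x) 6 volume :=
    ⟨h1.1.sub D.memu.1, hn.trans (by norm_num)⟩
  have h3 := h1.sub h2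
  refine h3.congr_norm D.memu.1 (Eventually.of_forall fun x => ?_)
  simp

lemma mem_hardy (h0 : (0 : E) ∉ Ω) (D : Data Ω u G φ) : MemLp (fun x => u x * ‖x‖⁻¹) 2 volume := by
  obtain ⟨n, hn⟩ := ((lim_hardy h0 D).eventually
    (gt_mem_nhds (show (0 : ℝ≥0∞) < 1 by norm_num))).exists
  have m1 : Measurable (fun y : E => ‖y‖⁻¹) := measurable_norm.inv
  have h1 : MemLp (fun x => φ n x * ‖x‖⁻¹) 2 volume := by
    refine ⟨((D.test n).smooth.continuous.measurable.mul m1).aestronglyMeasurable, ?_⟩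
    refine (hardy h0 (D.test n)).trans_lt ?_
    have : MemLp (gradient (φ n)) 2 volume :=
      (grad_cont (D.test n)).memLp_of_hasCompactSupport (grad_cpt (D.test n))
    exact ENNReal.mul_lt_top (by norm_num) this.2
  have m2 : AEStronglyMeasurable (fun x => u x * ‖x‖⁻¹) volume := D.memu.1.mul m1.aestronglyMeasurable
  have h2 : MemLp (fun x => (φ n x - u x) * ‖x‖⁻¹) 2 volume := by
    refine ⟨?_, hn.trans (by norm_num)⟩
    exact (((D.test n).smooth.continuous.aestronglyMeasurable).sub D.memu.1).mul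
      m1.aestronglyMeasurable
  have h3 := h1.sub h2
  refine h3.congr_norm m2 (Eventually.of_forall fun x => ?_)
  simp only [Pi.sub_apply]
  congr 1
  ring

end Pool.Agent.W2helper24.HS
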