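import Pool.Agent.W2helper24.HS.Hardy

/-! Difference quotients of dilations. -/

set_option autoImplicit false
open MeasureTheory Filter Topology Set
open scoped ENNReal ContDiff NNReal

namespace Pool.Agent.W2helper24.HS

variable {Ω : Set E} {ψ : E → ℝ}

/-- the generator of the dilations -/
noncomputable def Lam (ψ : E → ℝ) (y : E) : ℝ := ψ y / 2 + inner ℝ (gradient ψ y) y

/-- the dilation -/
noncomputable def dil (τ : ℝ) (ψ : E → ℝ) (x : E) : ℝ := τ ^ 5 * ψ (τ ^ 10 • x)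

lemma Lam_cont (h : IsTest Ω ψ) : Continuous (Lam ψ) := by
  unfold Lam
  exact (h.smooth.continuous.div_const 2).add ((grad_cont h).inner continuous_id)

lemma hasDerivAt_dil (h : IsTest Ω ψ) (x : E) (τ : ℝ) :
    HasDerivAt (fun τ : ℝ => dil τ ψ x) (10 * τ ^ 4 * Lam ψ (τ ^ 10 • x)) τ := by
  have h1 : HasDerivAt (fun τ : ℝ => τ ^ 10 • x) ((10 * τ ^ 9) • x) τ := by
    have := (hasDerivAt_pow 10 τ).smul_const x
    simpa using this
  have h2 : HasFDerivAt ψ (fderiv ℝ ψ (τ ^ 10 • x)) (τ ^ 10 • x) :=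
    (h.smooth.differentiable (by simp) _).hasFDerivAt
  have h3 := h2.comp_hasDerivAt τ h1
  have h4 := (hasDerivAt_pow 5 τ).mul h3
  have h5 : HasDerivAt (fun τ : ℝ => dil τ ψ x) _ τ := h4
  refine h5.congr_deriv ?_
  have e1 : inner ℝ (gradient ψ (τ ^ 10 • x)) (τ ^ 10 • x) = τ ^ 10 * fderiv ℝ ψ (τ ^ 10 • x) x := by
    unfold gradient
    rw [InnerProductSpace.toDual_symm_apply, map_smul, smul_eq_mul]
  unfold Lam
  rw [e1, map_smul, smul_eq_mul]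
  simp only [Function.comp_apply]
  push_cast
  ring

lemma sq_integral_le {f : ℝ → ℝ} (hf : Continuous f) {a b : ℝ} (hab : a < b) :
    (∫ s in a..b, f s) ^ 2 ≤ (b - a) * ∫ s in a..b, f s ^ 2 := by
  set I : ℝ := ∫ s in a..b, f s with hI
  set m : ℝ := I / (b - a) with hm
  have hba : 0 < b - a := by linarith
  have h0 : 0 ≤ ∫ s in a..b, (f s - m) ^ 2 :=
    intervalIntegral.integral_nonneg hab.le fun s _ => sq_nonneg _
  have i1 : IntervalIntegrable (fun s => f s ^ 2) volume a b := (hf.pow 2).intervalIntegrable a b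
  have i2 : IntervalIntegrable (fun s => 2 * m * f s) volume a b :=
    (continuous_const.mul hf).intervalIntegrable a b
  have i3 : IntervalIntegrable (fun _ : ℝ => m ^ 2) volume a b := intervalIntegrable_const
  have e1 : ∫ s in a..b, (f s - m) ^ 2 = (∫ s in a..b, f s ^ 2) - 2 * m * I + m ^ 2 * (b - a) := by
    have e2 : (fun s => (f s - m) ^ 2) = fun s => (f s ^ 2 - 2 * m * f s) + m ^ 2 := by
      funext s; ring
    rw [e2, intervalIntegral.integral_add (i1.sub i2) i3, intervalIntegral.integral_sub i1 i2,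
      intervalIntegral.integral_const_mul, intervalIntegral.integral_const, smul_eq_mul, ← hI]
    ring
  rw [e1] at h0
  have h2 : m * (b - a) = I := by rw [hm]; field_simp
  have h3 : m ^ 2 * (b - a) = m * I := by rw [← h2]; ring
  rw [h3] at h0
  have h4 : (b - a) * (m * I) = I ^ 2 := by rw [← h2]; ring
  nlinarith [mul_nonneg hba.le h0]

lemma dil_one (ψ : E → ℝ) (x : E) : dil 1 ψ x = ψ x := by simp [dil]

lemma dil_diff_pt (h : IsTest Ω ψ) (x : E) {τ : ℝ} (hτ : 1 < τ) :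
    (dil τ ψ x - ψ x) ^ 2 ≤ (τ - 1) * ∫ s in (1 : ℝ)..τ, (10 * s ^ 4 * Lam ψ (s ^ 10 • x)) ^ 2 := by
  have hc : Continuous (fun s : ℝ => 10 * s ^ 4 * Lam ψ (s ^ 10 • x)) :=
    (by fun_prop : Continuous fun s : ℝ => 10 * s ^ 4).mul
      ((Lam_cont h).comp (by fun_prop : Continuous fun s : ℝ => s ^ 10 • x))
  have h1 := intervalIntegral.integral_eq_sub_of_hasDerivAt (a := 1) (b := τ)
    (fun s _ => hasDerivAt_dil h x s) (hc.intervalIntegrable 1 τ)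
  have h2 := sq_integral_le hc hτ
  rw [h1, dil_one] at h2
  exact h2

lemma enorm_sq (r : ℝ) : ‖r‖ₑ ^ 2 = ENNReal.ofReal (r ^ 2) := by
  rw [← ofReal_norm, ← ENNReal.ofReal_pow (norm_nonneg _), Real.norm_eq_abs, sq_abs]

lemma sq_eLpNorm {α F : Type*} [MeasurableSpace α] {μ : Measure α} [NormedAddCommGroup F]
    (f : α → F) : (eLpNorm f 2 μ) ^ 2 = ∫⁻ x, ‖f x‖ₑ ^ 2 ∂μ := by
  rw [eLpNorm_two, ← ENNReal.rpow_natCast, ← ENNReal.rpow_mul]
  norm_num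

/-- `‖Λψ / |x|‖₂ ≤ 2 ‖∇ψ‖₂` -/
lemma Lam_le (h0 : (0 : E) ∉ Ω) (h : IsTest Ω ψ) :
    eLpNorm (fun y => Lam ψ y * ‖y‖⁻¹) 2 volume ≤ 2 * eLpNorm (gradient ψ) 2 volume := by
  have e : (fun y => Lam ψ y * ‖y‖⁻¹) =
      ((2⁻¹ : ℝ) • fun y => ψ y * ‖y‖⁻¹) + fun y => inner ℝ (gradient ψ y) y * ‖y‖⁻¹ := by
    funext y
    simp only [Lam, Pi.add_apply, Pi.smul_apply, smul_eq_mul]
    ring
  have m1 : Measurable (fun y : E => ‖y‖⁻¹) := measurable_norm.inv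
  have m2 : AEStronglyMeasurable ((2⁻¹ : ℝ) • fun y => ψ y * ‖y‖⁻¹) (volume : Measure E) :=
    ((h.smooth.continuous.measurable.mul m1).const_smul _).aestronglyMeasurable
  have m3 : AEStronglyMeasurable (fun y => inner ℝ (gradient ψ y) y * ‖y‖⁻¹) (volume : Measure E) :=
    ((((grad_cont h).inner continuous_id).measurable).mul m1).aestronglyMeasurable
  rw [e]
  refine (eLpNorm_add_le m2 m3 (by norm_num)).trans ?_
  have h1 : eLpNorm ((2⁻¹ : ℝ) • fun y => ψ y * ‖y‖⁻¹) 2 volume ≤ eLpNorm (gradient ψ) 2 volume := by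
    rw [eLpNorm_const_smul]
    have e2 : ‖(2⁻¹ : ℝ)‖ₑ = 2⁻¹ := by
      rw [Real.enorm_eq_ofReal (by norm_num), ENNReal.ofReal_inv_of_pos (by norm_num)]
      norm_num
    rw [e2]
    calc (2⁻¹ : ℝ≥0∞) * eLpNorm (fun y => ψ y * ‖y‖⁻¹) 2 volume
        ≤ 2⁻¹ * (2 * eLpNorm (gradient ψ) 2 volume) := by gcongr; exact hardy h0 h
      _ = eLpNorm (gradient ψ) 2 volume := by
        rw [← mul_assoc, ENNReal.inv_mul_cancel (by norm_num) (by norm_num), one_mul]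
  have h2 : eLpNorm (fun y => inner ℝ (gradient ψ y) y * ‖y‖⁻¹) 2 volume ≤
      eLpNorm (gradient ψ) 2 volume := by
    refine eLpNorm_mono fun y => ?_
    rw [norm_mul, norm_inv, norm_norm]
    by_cases hy : y = 0
    · subst hy; simp
    · have : ‖inner ℝ (gradient ψ y) y‖ ≤ ‖gradient ψ y‖ * ‖y‖ := norm_inner_le_norm _ _
      have hy' : 0 < ‖y‖ := norm_pos_iff.2 hy
      rw [← div_eq_mul_inv, div_le_iff₀ hy']
      exact this
  calc _ ≤ eLpNorm (gradient ψ) 2 volume + eLpNorm (gradient ψ) 2 volume := add_le_add h1 h2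
    _ = 2 * eLpNorm (gradient ψ) 2 volume := (two_mul _).symm

lemma slice (h0 : (0 : E) ∉ Ω) (h : IsTest Ω ψ) {s : ℝ} (hs : 1 ≤ s) :
    ∫⁻ x : E, ENNReal.ofReal ((10 * s ^ 4 * Lam ψ (s ^ 10 • x) * ‖x‖⁻¹) ^ 2) ≤
      (20 * eLpNorm (gradient ψ) 2 volume) ^ 2 := by
  have hs0 : 0 < s := by linarith
  set g : E → ℝ := fun y => Lam ψ y * ‖y‖⁻¹ with hg
  have e1 : ∀ x : E, 10 * s ^ 4 * Lam ψ (s ^ 10 • x) * ‖x‖⁻¹ =
      (10 / s) * (s ^ 15 • g (s ^ 10 • x)) := by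
    intro x
    simp only [hg, smul_eq_mul]
    rw [norm_smul, Real.norm_eq_abs, abs_of_pos (by positivity : (0:ℝ) < s ^ 10), mul_inv]
    field_simp
  have e2 : ∫⁻ x : E, ENNReal.ofReal ((10 * s ^ 4 * Lam ψ (s ^ 10 • x) * ‖x‖⁻¹) ^ 2) =
      (eLpNorm ((10 / s) • fun x => s ^ 15 • g (s ^ 10 • x)) 2 volume) ^ 2 := by
    rw [sq_eLpNorm]
    refine lintegral_congr fun x => ?_
    rw [e1, ← enorm_sq]
    rfl
  rw [e2, eLpNorm_const_smul, dil2 g hs0]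
  have h1 : ‖10 / s‖ₑ ≤ 10 := by
    rw [Real.enorm_eq_ofReal (by positivity)]
    have : (10 : ℝ≥0∞) = ENNReal.ofReal 10 := by norm_num
    rw [this]
    apply ENNReal.ofReal_le_ofReal
    rw [div_le_iff₀ hs0]
    linarith
  have h2 : ‖10 / s‖ₑ * eLpNorm g 2 volume ≤ 20 * eLpNorm (gradient ψ) 2 volume := by
    calc ‖10 / s‖ₑ * eLpNorm g 2 volume ≤ 10 * (2 * eLpNorm (gradient ψ) 2 volume) := by
          gcongr
          exact Lam_le h0 h
      _ = 20 * eLpNorm (gradient ψ) 2 volume := by rw [← mul_assoc]; norm_num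
  exact pow_le_pow_left' h2 2

/-- The difference quotient of dilations is bounded in `L²(|x|⁻² dx)`. -/
lemma dil_diff (h0 : (0 : E) ∉ Ω) (h : IsTest Ω ψ) {τ : ℝ} (hτ : 1 < τ) :
    eLpNorm (fun x => (dil τ ψ x - ψ x) * ‖x‖⁻¹) 2 volume ≤
      ENNReal.ofReal (20 * (τ - 1)) * eLpNorm (gradient ψ) 2 volume := by
  set A : ℝ≥0∞ := eLpNorm (gradient ψ) 2 volume with hA
  have hτ0 : 0 < τ - 1 := by linarith
  have hc : ∀ x : E, Continuous (fun s : ℝ => (10 * s ^ 4 * Lam ψ (s ^ 10 • x)) ^ 2) := fun x =>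
    ((by fun_prop : Continuous fun s : ℝ => 10 * s ^ 4).mul
      ((Lam_cont h).comp (by fun_prop : Continuous fun s : ℝ => s ^ 10 • x))).pow 2
  -- pointwise
  have hpt : ∀ x : E, ENNReal.ofReal (((dil τ ψ x - ψ x) * ‖x‖⁻¹) ^ 2) ≤
      ENNReal.ofReal (τ - 1) * ∫⁻ s in Ioc 1 τ,
        ENNReal.ofReal ((10 * s ^ 4 * Lam ψ (s ^ 10 • x) * ‖x‖⁻¹) ^ 2) := by
    intro x
    have h1 := dil_diff_pt h x hτ
    have h2 : ((dil τ ψ x - ψ x) * ‖x‖⁻¹) ^ 2 ≤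
        (τ - 1) * ∫ s in Ioc 1 τ, (10 * s ^ 4 * Lam ψ (s ^ 10 • x) * ‖x‖⁻¹) ^ 2 := by
      rw [mul_pow]
      have e3 : ∫ s in Ioc 1 τ, (10 * s ^ 4 * Lam ψ (s ^ 10 • x) * ‖x‖⁻¹) ^ 2 =
          (∫ s in (1 : ℝ)..τ, (10 * s ^ 4 * Lam ψ (s ^ 10 • x)) ^ 2) * ‖x‖⁻¹ ^ 2 := by
        rw [intervalIntegral.integral_of_le hτ.le, ← integral_mul_const]
        congr 1
        funext s
        rw [mul_pow]
      rw [e3, ← mul_assoc]
      exact mul_le_mul_of_nonneg_right h1 (sq_nonneg _)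
    have h3 : IntegrableOn (fun s : ℝ => (10 * s ^ 4 * Lam ψ (s ^ 10 • x) * ‖x‖⁻¹) ^ 2) (Ioc 1 τ) := by
      have : Continuous (fun s : ℝ => (10 * s ^ 4 * Lam ψ (s ^ 10 • x) * ‖x‖⁻¹) ^ 2) := by
        have h5 := (hc x).mul (continuous_const (y := ‖x‖⁻¹ ^ 2))
        refine h5.congr fun s => ?_
        simp only [Pi.mul_apply]
        rw [← mul_pow]
      exact this.integrableOn_Ioc
    calc ENNReal.ofReal (((dil τ ψ x - ψ x) * ‖x‖⁻¹) ^ 2)
        ≤ ENNReal.ofReal ((τ - 1) * ∫ s in Ioc 1 τ, (10 * s ^ 4 * Lam ψ (s ^ 10 • x) * ‖x‖⁻¹) ^ 2) :=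
          ENNReal.ofReal_le_ofReal h2
      _ = _ := by
          rw [ENNReal.ofReal_mul hτ0.le,
            ofReal_integral_eq_lintegral_ofReal h3 (Eventually.of_forall fun s => sq_nonneg _)]
  have hmeas : Measurable (fun p : E × ℝ =>
      ENNReal.ofReal ((10 * p.2 ^ 4 * Lam ψ (p.2 ^ 10 • p.1) * ‖p.1‖⁻¹) ^ 2)) := by
    have m1 : Measurable (fun p : E × ℝ => Lam ψ (p.2 ^ 10 • p.1)) :=
      ((Lam_cont h).comp (by fun_prop : Continuous fun p : E × ℝ => p.2 ^ 10 • p.1)).measurable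
    have m2 : Measurable (fun p : E × ℝ => ‖p.1‖⁻¹) := (measurable_norm.comp measurable_fst).inv
    have m3 : Measurable (fun p : E × ℝ => 10 * p.2 ^ 4) := (measurable_snd.pow_const 4).const_mul 10
    exact (((m3.mul m1).mul m2).pow_const 2).ennreal_ofReal
  have key : ∫⁻ x : E, ‖(dil τ ψ x - ψ x) * ‖x‖⁻¹‖ₑ ^ 2 ≤
      (ENNReal.ofReal (20 * (τ - 1))) ^ 2 * A ^ 2 := by
    calc ∫⁻ x : E, ‖(dil τ ψ x - ψ x) * ‖x‖⁻¹‖ₑ ^ 2
        ≤ ∫⁻ x : E, ENNReal.ofReal (τ - 1) * ∫⁻ s in Ioc 1 τ,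
            ENNReal.ofReal ((10 * s ^ 4 * Lam ψ (s ^ 10 • x) * ‖x‖⁻¹) ^ 2) := by
          refine lintegral_mono fun x => ?_
          rw [enorm_sq]
          exact hpt x
      _ = ENNReal.ofReal (τ - 1) * ∫⁻ x : E, ∫⁻ s in Ioc 1 τ,
            ENNReal.ofReal ((10 * s ^ 4 * Lam ψ (s ^ 10 • x) * ‖x‖⁻¹) ^ 2) := by
          rw [lintegral_const_mul' _ _ ENNReal.ofReal_ne_top]
      _ = ENNReal.ofReal (τ - 1) * ∫⁻ s in Ioc 1 τ, ∫⁻ x : E,
            ENNReal.ofReal ((10 * s ^ 4 * Lam ψ (s ^ 10 • x) * ‖x‖⁻¹) ^ 2) := by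
          rw [lintegral_lintegral_swap]
          exact hmeas.aemeasurable
      _ ≤ ENNReal.ofReal (τ - 1) * ∫⁻ s in Ioc 1 τ, (20 * A) ^ 2 := by
          gcongr ENNReal.ofReal (τ - 1) * ?_
          refine setLIntegral_mono' measurableSet_Ioc fun s hs => ?_
          exact slice h0 h hs.1.le
      _ = (ENNReal.ofReal (20 * (τ - 1))) ^ 2 * A ^ 2 := by
          rw [setLIntegral_const, Real.volume_Ioc, ENNReal.ofReal_mul (by norm_num : (0:ℝ) ≤ 20)]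
          have : ENNReal.ofReal 20 = 20 := by norm_num
          rw [this]
          ring
  refine eLpNorm_two_le ?_
  rw [← sq_eLpNorm (gradient ψ)]
  exact key

end Pool.Agent.W2helper24.HS
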