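import Pool.Agent.W2helper24.HS.Basic

/-! Hardy's inequality in three-space for functions supported away from the origin. -/

set_option autoImplicit false
open MeasureTheory Filter Topology Set
open scoped ENNReal ContDiff NNReal

namespace Pool.Agent.W2helper24.HS

lemma eLpNorm_two {α F : Type*} [MeasurableSpace α] {μ : Measure α} [NormedAddCommGroup F]
    (f : α → F) : eLpNorm f 2 μ = (∫⁻ x, ‖f x‖ₑ ^ 2 ∂μ) ^ (1 / 2 : ℝ) := by
  rw [eLpNorm_eq_lintegral_rpow_enorm_toReal (by norm_num) (by norm_num)]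
  simp

lemma eLpNorm_two_le {α F G : Type*} [MeasurableSpace α] {μ : Measure α} [NormedAddCommGroup F]
    [NormedAddCommGroup G] {f : α → F} {g : α → G} {c : ℝ≥0∞}
    (h : ∫⁻ x, ‖f x‖ₑ ^ 2 ∂μ ≤ c ^ 2 * ∫⁻ x, ‖g x‖ₑ ^ 2 ∂μ) :
    eLpNorm f 2 μ ≤ c * eLpNorm g 2 μ := by
  rw [eLpNorm_two, eLpNorm_two]
  calc (∫⁻ x, ‖f x‖ₑ ^ 2 ∂μ) ^ (1 / 2 : ℝ)
      ≤ (c ^ 2 * ∫⁻ x, ‖g x‖ₑ ^ 2 ∂μ) ^ (1 / 2 : ℝ) := by gcongr
    _ = c * (∫⁻ x, ‖g x‖ₑ ^ 2 ∂μ) ^ (1 / 2 : ℝ) := by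
        rw [ENNReal.mul_rpow_of_nonneg _ _ (by norm_num)]
        congr 1
        rw [← ENNReal.rpow_natCast, ← ENNReal.rpow_mul]
        norm_num

lemma integral_fderiv_eq_zero {g : E → ℝ} (hg : ContDiff ℝ 1 g) (hc : HasCompactSupport g)
    (v : E) : ∫ x, fderiv ℝ g x v = 0 := by
  have hgc : Continuous (fun x => fderiv ℝ g x v) :=
    (hg.continuous_fderiv (by norm_num)).clm_apply continuous_const
  have hgs : HasCompactSupport (fun x => fderiv ℝ g x v) :=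
    (hc.fderiv (𝕜 := ℝ)).comp_left (g := fun L : E →L[ℝ] ℝ => L v) (by simp)
  have h := integral_mul_fderiv_eq_neg_fderiv_mul_of_integrable (μ := (volume : Measure E))
    (f := fun _ => (1 : ℝ)) (g := g) (v := v) (by simp)
    (by simpa using hgc.integrable_of_hasCompactSupport hgs)
    (by simpa using hg.continuous.integrable_of_hasCompactSupport hc)
    (fun x _ => differentiableAt_const _)
    (fun x _ => hg.differentiable (by norm_num) x)
  simpa using h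

variable {Ω : Set E} {ψ : E → ℝ}

lemma IsTest.zero_near (h0 : (0 : E) ∉ Ω) (h : IsTest Ω ψ) : ψ =ᶠ[𝓝 0] 0 :=
  notMem_tsupport_iff_eventuallyEq.1 fun h1 => h0 (h.sub h1)

lemma IsTest.zero_at (h0 : (0 : E) ∉ Ω) (h : IsTest Ω ψ) : ψ 0 = 0 :=
  (h.zero_near h0).self_of_nhds

/-- the function `|x|⁻²` -/
noncomputable def WW (x : E) : ℝ := (‖x‖ ^ 2)⁻¹

lemma contDiff_mul_WW (h0 : (0 : E) ∉ Ω) (h : IsTest Ω ψ) (i : Fin 3) :
    ContDiff ℝ 1 (fun x => ψ x ^ 2 * (x i * WW x)) := by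
  rw [contDiff_iff_contDiffAt]
  intro x
  by_cases hx : x = 0
  · subst hx
    have : (fun x => ψ x ^ 2 * (x i * WW x)) =ᶠ[𝓝 0] fun _ => 0 := by
      filter_upwards [h.zero_near h0] with y hy
      rw [hy]; simp
    exact contDiffAt_const.congr_of_eventuallyEq this
  · have h1 : ContDiffAt ℝ 1 ψ x := (h.smooth.of_le (by norm_cast)).contDiffAt
    have h2 : ContDiffAt ℝ 1 WW x := by
      unfold WW
      exact ((contDiff_norm_sq ℝ).contDiffAt).inv (by positivity)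
    have h3 : ContDiffAt ℝ 1 (fun x : E => x i) x :=
      (EuclideanSpace.proj (𝕜 := ℝ) i).contDiff.contDiffAt
    exact (h1.pow 2).mul (h3.mul h2)

lemma fderiv_mul_WW (h0 : (0 : E) ∉ Ω) (h : IsTest Ω ψ) (i : Fin 3) (x : E) :
    fderiv ℝ (fun x => ψ x ^ 2 * (x i * WW x)) x (EuclideanSpace.single i 1) =
      2 * ψ x * (fderiv ℝ ψ x (EuclideanSpace.single i 1)) * (x i * WW x) +
        ψ x ^ 2 * (WW x - 2 * (x i) ^ 2 * WW x ^ 2) := by
  by_cases hx : x = 0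
  · subst hx
    have : (fun x => ψ x ^ 2 * (x i * WW x)) =ᶠ[𝓝 0] fun _ => 0 := by
      filter_upwards [h.zero_near h0] with y hy
      rw [hy]; simp
    rw [this.fderiv_eq, h.zero_at h0]
    simp
  · have hn : (‖x‖ ^ 2) ≠ 0 := by positivity
    have h1 : HasFDerivAt ψ (fderiv ℝ ψ x) x :=
      (h.smooth.differentiable (by simp) x).hasFDerivAt
    have h3 : HasFDerivAt (fun x : E => x i) (EuclideanSpace.proj (𝕜 := ℝ) i) x :=
      (EuclideanSpace.proj (𝕜 := ℝ) i : E →L[ℝ] ℝ).hasFDerivAt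
    have h4 : HasFDerivAt (fun y : E => ‖y‖ ^ 2) (2 • (innerSL ℝ x)) x :=
      (hasStrictFDerivAt_norm_sq x).hasFDerivAt
    have h5 : HasFDerivAt WW ((-(‖x‖ ^ 2) ^ 2)⁻¹ • (2 • (innerSL ℝ x))) x := by
      have h6 : HasDerivAt (fun s : ℝ => s⁻¹) (-((‖x‖ ^ 2) ^ 2)⁻¹) (‖x‖ ^ 2) := hasDerivAt_inv hn
      have := h6.comp_hasFDerivAt x h4
      refine this.congr_fderiv ?_
      rw [neg_inv]
    have h6 := (h1.pow 2).mul (h3.mul h5)
    have h7 : HasFDerivAt (fun x => ψ x ^ 2 * (x i * WW x)) _ x := h6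
    rw [h7.fderiv]
    have e1 : (innerSL ℝ x) (EuclideanSpace.single i (1 : ℝ)) = x i := by
      simp [EuclideanSpace.inner_single_right]
    have e2 : (EuclideanSpace.proj (𝕜 := ℝ) i : E →L[ℝ] ℝ) (EuclideanSpace.single i (1 : ℝ)) = 1 := by
      simp
    simp only [add_apply, smul_apply, e1, e2, smul_eq_mul, WW, nsmul_eq_mul, Pi.mul_apply]
    field_simp
    push_cast
    ring

lemma grad_cont (h : IsTest Ω ψ) : Continuous (gradient ψ) := by
  unfold gradient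
  exact (InnerProductSpace.toDual ℝ E).symm.continuous.comp
    (h.smooth.continuous_fderiv (by simp))

lemma grad_cpt (h : IsTest Ω ψ) : HasCompactSupport (gradient ψ) := by
  have := h.cpt.fderiv (𝕜 := ℝ)
  exact this.comp_left (g := (InnerProductSpace.toDual ℝ E).symm) (by simp)

lemma grad_sq_int (h : IsTest Ω ψ) : Integrable (fun x => ‖gradient ψ x‖ ^ 2) := by
  have h1 : Continuous (fun x => ‖gradient ψ x‖ ^ 2) := (grad_cont h).norm.pow 2
  have h2 : HasCompactSupport (fun x => ‖gradient ψ x‖ ^ 2) :=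
    (grad_cpt h).comp_left (g := fun v : E => ‖v‖ ^ 2) (by simp)
  exact h1.integrable_of_hasCompactSupport h2

/-- the divergence of `ψ² x / |x|²` -/
noncomputable def DD (ψ : E → ℝ) (x : E) : ℝ := ∑ i : Fin 3,
    fderiv ℝ (fun x => ψ x ^ 2 * (x i * WW x)) x (EuclideanSpace.single i 1)

lemma cs_mul_WW (h : IsTest Ω ψ) (i : Fin 3) :
    HasCompactSupport (fun x => ψ x ^ 2 * (x i * WW x)) := by
  have : HasCompactSupport (fun x => ψ x ^ 2) := h.cpt.comp_left (g := fun s : ℝ => s ^ 2) (by simp)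
  exact this.mul_right

lemma DDi_int (h0 : (0 : E) ∉ Ω) (h : IsTest Ω ψ) (i : Fin 3) : Integrable
    (fun x => fderiv ℝ (fun x => ψ x ^ 2 * (x i * WW x)) x (EuclideanSpace.single i 1)) := by
  have h1 : Continuous (fun x => fderiv ℝ (fun x => ψ x ^ 2 * (x i * WW x)) x
      (EuclideanSpace.single i 1)) :=
    ((contDiff_mul_WW h0 h i).continuous_fderiv (by norm_num)).clm_apply continuous_const
  have h2 : HasCompactSupport (fun x => fderiv ℝ (fun x => ψ x ^ 2 * (x i * WW x)) x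
      (EuclideanSpace.single i 1)) :=
    ((cs_mul_WW h i).fderiv (𝕜 := ℝ)).comp_left
        (g := fun L : E →L[ℝ] ℝ => L (EuclideanSpace.single i 1)) (by simp)
  exact h1.integrable_of_hasCompactSupport h2

lemma DD_int (h0 : (0 : E) ∉ Ω) (h : IsTest Ω ψ) : Integrable (DD ψ) :=
  integrable_finsetSum _ fun i _ => DDi_int h0 h i

lemma DD_zero (h0 : (0 : E) ∉ Ω) (h : IsTest Ω ψ) : ∫ x, DD ψ x = 0 := by
  unfold DD
  rw [integral_finsetSum _ fun i _ => DDi_int h0 h i]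
  exact Finset.sum_eq_zero fun i _ => integral_fderiv_eq_zero (contDiff_mul_WW h0 h i) (cs_mul_WW h i) _

lemma grad_coord (ψ : E → ℝ) (x y : E) :
    ∑ i : Fin 3, fderiv ℝ ψ x (EuclideanSpace.single i 1) * y i = inner ℝ (gradient ψ x) y := by
  have e1 : inner ℝ (gradient ψ x) y = fderiv ℝ ψ x y := by
    unfold gradient
    rw [InnerProductSpace.toDual_symm_apply]
  rw [e1]
  have e2 : y = ∑ i : Fin 3, y i • (EuclideanSpace.single i (1 : ℝ) : E) := by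
    have := (EuclideanSpace.basisFun (Fin 3) ℝ).sum_repr y
    simpa using this.symm
  conv_rhs => rw [e2]
  rw [map_sum]
  refine Finset.sum_congr rfl fun i _ => ?_
  rw [map_smul, smul_eq_mul]; ring

lemma DD_val (h0 : (0 : E) ∉ Ω) (h : IsTest Ω ψ) (x : E) :
    DD ψ x = 2 * ψ x * WW x * inner ℝ (gradient ψ x) x + ψ x ^ 2 * WW x := by
  unfold DD
  simp only [fderiv_mul_WW h0 h]
  rw [Finset.sum_add_distrib]
  have e1 : ∑ i : Fin 3, 2 * ψ x * (fderiv ℝ ψ x (EuclideanSpace.single i 1)) * (x i * WW x) =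
      2 * ψ x * WW x * inner ℝ (gradient ψ x) x := by
    rw [← grad_coord ψ x x, Finset.mul_sum]
    exact Finset.sum_congr rfl fun i _ => by ring
  rw [e1]
  congr 1
  by_cases hx : x = 0
  · rw [hx, h.zero_at h0]; simp
  · have hn : (‖x‖ ^ 2) ≠ 0 := by positivity
    have e2 : ∑ i : Fin 3, (x i) ^ 2 = ‖x‖ ^ 2 := by
      rw [EuclideanSpace.norm_sq_eq]; simp
    rw [← Finset.mul_sum, Finset.sum_sub_distrib]
    have e3 : ∑ i : Fin 3, 2 * (x i) ^ 2 * WW x ^ 2 = 2 * WW x := by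
      rw [← Finset.sum_mul, ← Finset.mul_sum, e2]
      unfold WW
      field_simp
    have e4 : ∑ _i : Fin 3, WW x = 3 * WW x := by simp
    rw [e3, e4]
    ring

lemma hardy_pt (h0 : (0 : E) ∉ Ω) (h : IsTest Ω ψ) (x : E) :
    (ψ x * ‖x‖⁻¹) ^ 2 ≤ 4 * ‖gradient ψ x‖ ^ 2 + 2 * DD ψ x := by
  rw [DD_val h0 h x]
  by_cases hx : x = 0
  · rw [hx, h.zero_at h0]
    simp
  · have hn : (‖x‖ ^ 2) ≠ 0 := by positivity
    have hsq : (ψ x * ‖x‖⁻¹) ^ 2 = ψ x ^ 2 * WW x := by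
      unfold WW; rw [mul_pow, inv_pow]
    set v : E := gradient ψ x
    set c : ℝ := ψ x * WW x with hc
    have h5 : 0 ≤ ‖(2 : ℝ) • v + c • x‖ ^ 2 := sq_nonneg _
    rw [norm_add_sq_real, norm_smul, norm_smul, real_inner_smul_left, real_inner_smul_right, mul_pow,
      mul_pow, Real.norm_eq_abs, Real.norm_eq_abs, sq_abs, sq_abs] at h5
    have h6 : c ^ 2 * ‖x‖ ^ 2 = ψ x ^ 2 * WW x := by
      rw [hc]; unfold WW; field_simp
    rw [h6] at h5
    rw [hsq]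
    have h7 : 2 * (2 * ψ x * WW x * inner ℝ v x + ψ x ^ 2 * WW x) =
        2 * (2 * (c * inner ℝ v x)) + 2 * (ψ x ^ 2 * WW x) := by rw [hc]; ring
    rw [h7]
    linarith

lemma hardy_real (h0 : (0 : E) ∉ Ω) (h : IsTest Ω ψ) :
    Integrable (fun x => (ψ x * ‖x‖⁻¹) ^ 2) ∧
    ∫ x, (ψ x * ‖x‖⁻¹) ^ 2 ≤ 4 * ∫ x, ‖gradient ψ x‖ ^ 2 := by
  have i2 := grad_sq_int h
  have hDint := DD_int h0 h
  have i3 : Integrable (fun x => 4 * ‖gradient ψ x‖ ^ 2 + 2 * DD ψ x) :=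
    (i2.const_mul 4).add (hDint.const_mul 2)
  have i1 : Integrable (fun x => (ψ x * ‖x‖⁻¹) ^ 2) := by
    refine Integrable.mono' i3 ?_ ?_
    · have h1 : Measurable (fun x : E => (ψ x * ‖x‖⁻¹) ^ 2) :=
        ((h.smooth.continuous.measurable.mul measurable_norm.inv).pow_const 2)
      exact h1.aestronglyMeasurable
    · refine Eventually.of_forall fun x => ?_
      rw [Real.norm_eq_abs, abs_of_nonneg (sq_nonneg _)]
      exact hardy_pt h0 h x
  refine ⟨i1, ?_⟩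
  calc ∫ x, (ψ x * ‖x‖⁻¹) ^ 2 ≤ ∫ x, (4 * ‖gradient ψ x‖ ^ 2 + 2 * DD ψ x) :=
        integral_mono i1 i3 (hardy_pt h0 h)
    _ = 4 * ∫ x, ‖gradient ψ x‖ ^ 2 := by
        rw [integral_add (i2.const_mul 4) (hDint.const_mul 2), integral_const_mul,
          integral_const_mul, DD_zero h0 h]
        ring

/-- Hardy's inequality. -/
lemma hardy (h0 : (0 : E) ∉ Ω) (h : IsTest Ω ψ) :
    eLpNorm (fun x => ψ x * ‖x‖⁻¹) 2 volume ≤ 2 * eLpNorm (gradient ψ) 2 volume := by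
  obtain ⟨i1, h3⟩ := hardy_real h0 h
  have i2 := grad_sq_int h
  refine eLpNorm_two_le ?_
  have e1 : ∫⁻ x, ‖ψ x * ‖x‖⁻¹‖ₑ ^ 2 = ENNReal.ofReal (∫ x, (ψ x * ‖x‖⁻¹) ^ 2) := by
    rw [ofReal_integral_eq_lintegral_ofReal i1 (Eventually.of_forall fun x => sq_nonneg _)]
    refine lintegral_congr fun x => ?_
    rw [← ofReal_norm, ← ENNReal.ofReal_pow (norm_nonneg _), Real.norm_eq_abs, sq_abs]
  have e2 : ∫⁻ x, ‖gradient ψ x‖ₑ ^ 2 = ENNReal.ofReal (∫ x, ‖gradient ψ x‖ ^ 2) := by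
    rw [ofReal_integral_eq_lintegral_ofReal i2 (Eventually.of_forall fun x => sq_nonneg _)]
    refine lintegral_congr fun x => ?_
    rw [← ofReal_norm, ← ENNReal.ofReal_pow (norm_nonneg _)]
  rw [e1, e2]
  have e4 : (2 : ℝ≥0∞) ^ 2 = ENNReal.ofReal 4 := by norm_num
  rw [e4, ← ENNReal.ofReal_mul (by norm_num)]
  exact ENNReal.ofReal_le_ofReal h3

end Pool.Agent.W2helper24.HS
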